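import Pool.Agent.Helper73.KT.Part
import Pool.Agent.Helper73.LF.Sq
import Pool.Agent.Helper73.LF.NoI
import Pool.Agent.Helper73.LF.Lin
import Pool.Agent.Helper73.LF.Chars
import Pool.Agent.Helper73.LF.PiAdic

/-!
# Frobenius on the second cohomology of Legendre surfaces over Fermat curves

`LegendreFermatH2 p n L V` lists properties of the geometric Frobenius on `V = H²(X̄, L)`,
`L = \bar ℚ_ℓ`, for the elliptic surface `X` with the equation `y² = x (x - 1) (x - u ^ n)` over
the Fermat curve `u ^ n + v ^ n = 1`, or over another abelian cover of the projective line of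
exponent `n` which is ramified only over `0`, `1`, `∞`, over the field of `p` elements.
-/

open Module

namespace Pool.Agent.Results.MP_1fe969_ag.LegendreFermat

open Pool.Agent.Helper73.KT Pool.Agent.Helper73.LF

/-- the sum of `ρ (x (x - 1) (x - t)) α (t) β (1 - t)` over all `t` and `x` in `K`, where `ρ` is
the quadratic character -/
noncomputable def legendreSum {K L : Type} [Field K] [Fintype K] [DecidableEq K] [Field L]
    (α β : MulChar K L) : L :=
  ∑ t : K, ∑ x : K, (quadraticChar K (x * (x - 1) * (x - t)) : L) * (α t * β (1 - t))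

/-- the power of the character `τ` with exponent `(q - 1) a / n`, `q` the number of elements -/
noncomputable def power {K L : Type} [Field K] [Fintype K] [Field L] {n : ℕ} (τ : MulChar K L)
    (a : ZMod n) : MulChar K L := τ ^ ((Fintype.card K - 1) * a.val / n)

/-- Frobenius on `V = H²(X̄, L)` and the parts of `V` belonging to the characters of the group of
the cover. -/
structure LegendreFermatH2 (p n : ℕ) (L V : Type) [Field L] [AddCommGroup V] [Module L V] where
  /-- the geometric Frobenius -/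
  Fr : End L V
  injective : Function.Injective Fr
  /-- the cup product -/
  B : LinearMap.BilinForm L V
  symm : ∀ x y, B x y = B y x
  similitude : ∀ x y, B (Fr x) (Fr y) = (p : L) ^ 2 * B x y
  /-- a subspace on which `Fr` is known to be semisimple: the span of the algebraic classes and
  of the parts for `(a, a)`, which are sums of lines stable under a power of `Fr` -/
  N : Submodule L V
  N_stable : ∀ x ∈ N, Fr x ∈ N
  N_semisimple : End.IsSemisimple (Fr.restrict N_stable)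
  /-- the part `H¹` of the middle extension of the cohomology of the Legendre family twisted by
  the characters with exponents `a`, `b` of `t` and `1 - t`, for `a ≠ b` -/
  W : ZMod n → ZMod n → Submodule L V
  diagonal : ∀ a, W a a = ⊥
  span : N ⊔ ⨆ a, ⨆ b, W a b = ⊤
  stable : ∀ a b, ∀ x ∈ W a b, Fr x ∈ W (p * a) (p * b)
  perfect : ∀ a b, ∀ v ∈ W a b, (∀ w ∈ W (-a) (-b), B v w = 0) → v = 0
  finrank_le : ∀ a b, finrank L (W a b) ≤ 2
  /-- one of the three local monodromies has invariants -/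
  finrank_le_one : ∀ a b, a = 0 ∨ b = 0 ∨ a + b ≠ 0 ∧ 2 * (a + b) = 0 →
    finrank L (W a b) ≤ 1
  /-- the trace formula -/
  trace_formula : ∀ (m : ℕ) (K : Type) [Field K] [Fintype K] [DecidableEq K],
    Fintype.card K = p ^ m → ∃ τ : MulChar K L, orderOf τ = p ^ m - 1 ∧
      ∀ a b, W a b ≠ ⊥ → ¬ (a = 0 ∨ b = 0 ∨ a + b ≠ 0 ∧ 2 * (a + b) = 0) →
        (p : ZMod n) ^ m * a = a → (p : ZMod n) ^ m * b = b →
          ∀ h : ∀ x ∈ W a b, (Fr ^ m) x ∈ W a b,
            LinearMap.trace L (W a b) ((Fr ^ m).restrict h) =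
              legendreSum (power τ a) (power τ b)

/-- in every part, an integer killing `a - b` kills `a` -/
def LegendreFermatH2.Separated {p n : ℕ} {L V : Type} [Field L] [AddCommGroup V] [Module L V]
    (H : LegendreFermatH2 p n L V) : Prop :=
  ∀ a b, H.W a b ≠ ⊥ → ∀ d : ℕ, (d : ZMod n) * (a - b) = 0 → (d : ZMod n) * a = 0

section

variable {p n : ℕ} {L V : Type} [Field L] [AddCommGroup V] [Module L V]

theorem stable_pow (H : LegendreFermatH2 p n L V) (j : ℕ) (a b : ZMod n) :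
    ∀ x ∈ H.W a b, (H.Fr ^ j) x ∈ H.W ((p : ZMod n) ^ j * a) ((p : ZMod n) ^ j * b) := by
  induction j with
  | zero =>
    intro x hx
    rw [pow_zero, pow_zero, one_mul, one_mul]
    exact hx
  | succ j ih =>
    intro x hx
    have h := H.stable _ _ _ (ih x hx)
    rw [← mul_assoc, ← mul_assoc, ← pow_succ'] at h
    rw [pow_succ' H.Fr]
    exact h

theorem stable_of (H : LegendreFermatH2 p n L V) {m : ℕ} {a b : ZMod n}
    (ha : (p : ZMod n) ^ m * a = a) (hb : (p : ZMod n) ^ m * b = b) :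
    ∀ x ∈ H.W a b, (H.Fr ^ m) x ∈ H.W a b := by
  intro x hx
  have h := stable_pow H m a b x hx
  rwa [ha, hb] at h

theorem similitude_pow (H : LegendreFermatH2 p n L V) (j : ℕ) (x y : V) :
    H.B ((H.Fr ^ j) x) ((H.Fr ^ j) y) = ((p : L) ^ j) ^ 2 * H.B x y := by
  induction j generalizing x y with
  | zero => simp
  | succ j ih =>
    rw [pow_succ, End.mul_apply, End.mul_apply, ih, H.similitude, pow_succ]
    ring

theorem ne_bot_neg (H : LegendreFermatH2 p n L V) {a b : ZMod n} (h : H.W a b ≠ ⊥) :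
    H.W (-a) (-b) ≠ ⊥ := by
  intro h0
  apply h
  rw [eq_bot_iff]
  intro v hv
  rw [Submodule.mem_bot]
  apply H.perfect a b v hv
  intro w hw
  rw [h0, Submodule.mem_bot] at hw
  rw [hw, map_zero]

variable [CharZero L] [IsAlgClosed L] [FiniteDimensional L V]

/-- a part on which a power of Frobenius has no Jordan block -/
theorem part (H : LegendreFermatH2 p n L V) {m : ℕ} (hm : 0 < m) {a b : ZMod n}
    (ha : (p : ZMod n) ^ m * a = a) (hb : (p : ZMod n) ^ m * b = b)
    (hbad : H.W a b ≠ ⊥ → ¬ (a = 0 ∨ b = 0 ∨ a + b ≠ 0 ∧ 2 * (a + b) = 0) →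
      ∀ (x : H.W a b) (c : L), ((H.Fr ^ m).restrict (stable_of H ha hb) - c • 1)
        (((H.Fr ^ m).restrict (stable_of H ha hb) - c • 1) x) = 0 →
          ((H.Fr ^ m).restrict (stable_of H ha hb) - c • 1) x ≠ 0 → False) :
    H.W a b ≤ ⨆ c, H.Fr.eigenspace c := by
  refine le_of_restrict H.injective hm (stable_of H ha hb) ?_
  intro x c hx
  by_contra hx'
  have h2 := two_le hx hx'
  have hne : H.W a b ≠ ⊥ := by
    intro h0
    rw [h0, finrank_bot] at h2
    omega
  refine hbad hne ?_ x c hx hx'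
  intro hdeg
  have := H.finrank_le_one a b hdeg
  omega

end

section

variable {p n : ℕ} [hp : Fact p.Prime] [NeZero n] {L V : Type} [Field L] [AddCommGroup V]
    [Module L V] [CharZero L] [IsAlgClosed L] [FiniteDimensional L V]

omit [NeZero n] [CharZero L] [IsAlgClosed L] [FiniteDimensional L V] [Field L]
  [AddCommGroup V] [Module L V] in
theorem ringChar_ne (hp2 : p ≠ 2) {K : Type} [Field K] [Fintype K] {m : ℕ}
    (hK : Fintype.card K = p ^ m) : ringChar K ≠ 2 := by
  intro h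
  rw [FiniteField.even_card_iff_char_two, hK, ← Nat.even_iff] at h
  exact (Nat.not_even_iff_odd.2 ((hp.out.odd_of_ne_two hp2).pow)) h

omit hp [NeZero n] in
theorem kill {m : ℕ} {a : ZMod n} (hpm : 0 < p) (ha : (p : ZMod n) ^ m * a = a) :
    ((p ^ m - 1 : ℕ) : ZMod n) * a = 0 := by
  rw [Nat.cast_sub (Nat.one_le_pow _ _ hpm), Nat.cast_one, Nat.cast_pow, sub_mul, ha, one_mul,
    sub_self]

omit [NeZero n] [AddCommGroup V] [Module L V] [FiniteDimensional L V] in
theorem exists_addChar (K : Type) [Field K] [Fintype K] : ∃ ψ : AddChar K L, ψ.IsPrimitive := by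
  have h : ringChar L ≠ ringChar K := by
    rw [ringChar.eq_zero]
    intro h
    have : CharP K 0 := by
      rw [h]
      exact ringChar.charP K
    have : CharZero K := CharP.charP_to_charZero K
    exact not_injective_infinite_finite (Nat.cast : ℕ → K) Nat.cast_injective
  let ψ := AddChar.FiniteField.primitiveChar K L h
  have hcyc : IsCyclotomicExtension {(ψ.n : ℕ)} L (CyclotomicField ψ.n L) :=
    CyclotomicField.isCyclotomicExtension ψ.n L
  have hfin : FiniteDimensional L (CyclotomicField ψ.n L) :=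
    IsCyclotomicExtension.finiteDimensional {(ψ.n : ℕ)} L (CyclotomicField ψ.n L)
  let φ : CyclotomicField ψ.n L →ₐ[L] L := IsAlgClosed.lift
  exact ⟨_, ψ.prim.compMulHom_of_isPrimitive (f := (φ : CyclotomicField ψ.n L →* L)) φ.injective⟩

omit [NeZero n] hp [CharZero L] [IsAlgClosed L] [FiniteDimensional L V] in
theorem deg_neg {a b : ZMod n} (h : ¬ (a = 0 ∨ b = 0 ∨ a + b ≠ 0 ∧ 2 * (a + b) = 0)) :
    ¬ (-a = 0 ∨ -b = 0 ∨ -a + -b ≠ 0 ∧ 2 * (-a + -b) = 0) := by
  intro h'
  apply h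
  rcases h' with h' | h' | ⟨h', h''⟩
  · exact Or.inl (neg_eq_zero.1 h')
  · exact Or.inr (Or.inl (neg_eq_zero.1 h'))
  · refine Or.inr (Or.inr ⟨fun h0 => h' ?_, ?_⟩)
    · rw [← neg_add, h0, neg_zero]
    · rw [← neg_add, mul_neg, neg_eq_zero] at h''
      exact h''

/-- the traces on a part and on the dual part if there is a Jordan block -/
theorem dual_traces (H : LegendreFermatH2 p n L V) {m : ℕ} {a b : ZMod n}
    (ha : (p : ZMod n) ^ m * a = a) (hb : (p : ZMod n) ^ m * b = b) (hne : H.W a b ≠ ⊥)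
    (hdeg : ¬ (a = 0 ∨ b = 0 ∨ a + b ≠ 0 ∧ 2 * (a + b) = 0)) {x : H.W a b} {c : L}
    (hx : ((H.Fr ^ m).restrict (stable_of H ha hb) - c • 1)
        (((H.Fr ^ m).restrict (stable_of H ha hb) - c • 1) x) = 0)
    (hx' : ((H.Fr ^ m).restrict (stable_of H ha hb) - c • 1) x ≠ 0)
    (K : Type) [Field K] [Fintype K] [DecidableEq K] (hK : Fintype.card K = p ^ m) :
    ∃ τ : MulChar K L, orderOf τ = Fintype.card K - 1 ∧ c ≠ 0 ∧
      legSum (eta K L) (ch τ a) (ch τ b) = 2 * c ∧
      legSum (eta K L) (ch τ a)⁻¹ (ch τ b)⁻¹ = 2 * ((Fintype.card K : L) ^ 2 / c) := by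
  obtain ⟨τ, hτ, htr⟩ := H.trace_formula m K hK
  rw [← hK] at hτ
  have hp0 : 0 < p := hp.out.pos
  have hKa : ((Fintype.card K - 1 : ℕ) : ZMod n) * a = 0 := by rw [hK]; exact kill hp0 ha
  have hKb : ((Fintype.card K - 1 : ℕ) : ZMod n) * b = 0 := by rw [hK]; exact kill hp0 hb
  have ha' : (p : ZMod n) ^ m * (-a) = -a := by rw [mul_neg, ha]
  have hb' : (p : ZMod n) ^ m * (-b) = -b := by rw [mul_neg, hb]
  have hQ0 : ((p : L) ^ m) ^ 2 ≠ 0 :=
    pow_ne_zero _ (pow_ne_zero _ (Nat.cast_ne_zero.2 hp.out.ne_zero))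
  have t1 := htr a b hne hdeg ha hb (stable_of H ha hb)
  have t2 := htr (-a) (-b) (ne_bot_neg H hne) (deg_neg hdeg) ha' hb' (stable_of H ha' hb')
  obtain ⟨hc, h1, h2⟩ := pair_trace (T := (H.Fr ^ m).restrict (stable_of H ha hb))
    (T' := (H.Fr ^ m).restrict (stable_of H ha' hb'))
    (H.B.compl₁₂ (H.W a b).subtype (H.W (-a) (-b)).subtype) hQ0
    (fun y z => similitude_pow H m (y : V) (z : V))
    (fun y hy => Subtype.ext (H.perfect a b y y.2 fun w hw => hy ⟨w, hw⟩))
    (fun z hz => Subtype.ext (H.perfect (-a) (-b) z z.2 fun w hw => by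
      rw [neg_neg, neg_neg] at hw
      rw [H.symm]
      exact hz ⟨w, hw⟩)) (H.finrank_le a b) hx hx'
  refine ⟨τ, hτ, hc, ?_, ?_⟩
  · rw [← h1, t1]
    rfl
  · rw [← ch_neg hτ hKa, ← ch_neg hτ hKb, hK, Nat.cast_pow, ← h2, t2]
    rfl

/-- the case of an odd degree over a prime field with `p` congruent to `3` modulo `4` -/
theorem case_odd (H : LegendreFermatH2 p n L V) (hp4 : p % 4 = 3) {m : ℕ} (hm : Odd m)
    {a b : ZMod n} (ha : (p : ZMod n) ^ m * a = a) (hb : (p : ZMod n) ^ m * b = b) :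
    H.W a b ≤ ⨆ c, H.Fr.eigenspace c := by
  classical
  refine part H hm.pos ha hb ?_
  intro hne hdeg x c hx hx'
  have hp2 : p ≠ 2 := by omega
  have hp0 : 0 < p := hp.out.pos
  obtain ⟨K, _, _, hfin⟩ := exists_field (ZMod p) hm.pos
  have : Module.Finite (ZMod p) K := Module.finite_of_finrank_pos (by rw [hfin]; exact hm.pos)
  have : Finite K := Module.finite_of_finite (ZMod p)
  have := Fintype.ofFinite K
  have hK : Fintype.card K = p ^ m := by
    rw [Module.card_eq_pow_finrank (K := ZMod p), hfin, ZMod.card]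
  obtain ⟨τ, hτ, hc, h1, h2⟩ := dual_traces H ha hb hne hdeg hx hx' K hK
  have hKa : ((Fintype.card K - 1 : ℕ) : ZMod n) * a = 0 := by rw [hK]; exact kill hp0 ha
  have hKb : ((Fintype.card K - 1 : ℕ) : ZMod n) * b = 0 := by rw [hK]; exact kill hp0 hb
  rw [not_or, not_or] at hdeg
  obtain ⟨hda, hdb, hdab⟩ := hdeg
  have hr : ringChar K ≠ 2 := ringChar_ne hp2 hK
  have hη1 : eta K L ≠ 1 := eta_ne_one hr
  have hη : (eta K L).IsQuadratic := eta_quadratic
  -- the number of elements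
  have hK4 : Fintype.card K % 4 = 3 := by
    obtain ⟨k, hk⟩ := hm
    rw [hK, hk, pow_succ, pow_mul, Nat.mul_mod, Nat.pow_mod, Nat.pow_mod p, hp4]
    norm_num
  obtain ⟨j, hj⟩ : ∃ j, Fintype.card K - 1 = 2 * (2 * j + 1) :=
    ⟨Fintype.card K / 4, by omega⟩
  obtain ⟨F, hF, hFi⟩ := exists_subfield (L := L) (D := 2 * j + 1) ⟨j, rfl⟩
  have hval : ∀ (χ : MulChar K L) (y : K), χ y ∈ F := by
    intro χ y
    by_cases hy : y = 0
    · rw [hy, MulChar.map_nonunit _ not_isUnit_zero]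
      exact F.zero_mem
    · apply hF
      rw [← hj, ← map_pow, FiniteField.pow_card_sub_one_eq_one y hy, map_one]
  obtain ⟨ψ, hψ⟩ := exists_addChar (L := L) K
  obtain ⟨hcF, y, hyF, hcy⟩ := lam_sq hη1 hη (ch_ne_one hτ hKa hda) (ch_ne_one hτ hKb hdb)
    (ch_mul_ne hτ hKa hKb hη1 hη.sq_eq_one hdab) hψ (hval _) (hval _) (hval _) hc h1 h2
  have hneg : eta K L (-1) = -1 := by
    rw [eta_apply, quadraticChar_neg_one_iff_not_isSquare.2 (by
      rw [FiniteField.isSquare_neg_one_iff]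
      exact fun h => h hK4)]
    push_cast
    rfl
  rw [hneg] at hcy
  have hy0 : y ≠ 0 := by
    rintro rfl
    apply hc
    rw [zero_pow two_ne_zero, mul_zero] at hcy
    exact (pow_eq_zero_iff two_ne_zero).1 hcy
  apply hFi (c / y) (F.div_mem hcF hyF)
  rw [div_pow, hcy]
  field_simp

/-- the trace on a part which is the image of its dual under a power of Frobenius -/
theorem self_dual (H : LegendreFermatH2 p n L V) {f : ℕ} (hf : 0 < f) {a b : ZMod n}
    (ha : (p : ZMod n) ^ f * a = -a) (hb : (p : ZMod n) ^ f * b = -b)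
    (hbad : ∀ (K₀ K : Type) [Field K₀] [Fintype K₀] [Field K] [Fintype K] [DecidableEq K]
      [Algebra K₀ K] (τ : MulChar K L), Fintype.card K₀ = p ^ f →
        Fintype.card K = Fintype.card K₀ ^ 2 → orderOf τ = Fintype.card K - 1 →
          ((Fintype.card K - 1 : ℕ) : ZMod n) * a = 0 →
          ((Fintype.card K - 1 : ℕ) : ZMod n) * b = 0 →
          ¬ (a = 0 ∨ b = 0 ∨ a + b ≠ 0 ∧ 2 * (a + b) = 0) →
          legSum (eta K L) (ch τ a) (ch τ b) = -2 * Fintype.card K → False) :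
    H.W a b ≤ ⨆ c, H.Fr.eigenspace c := by
  classical
  have hp0 : 0 < p := hp.out.pos
  have ha2 : (p : ZMod n) ^ (2 * f) * a = a := by
    rw [two_mul, pow_add, mul_assoc, ha, mul_neg, ha, neg_neg]
  have hb2 : (p : ZMod n) ^ (2 * f) * b = b := by
    rw [two_mul, pow_add, mul_assoc, hb, mul_neg, hb, neg_neg]
  refine part H (by omega) ha2 hb2 ?_
  intro hne hdeg x c hx hx'
  obtain ⟨K₀, _, _, hfin⟩ := exists_field (ZMod p) hf
  have : Module.Finite (ZMod p) K₀ := Module.finite_of_finrank_pos (by rw [hfin]; exact hf)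
  have : Finite K₀ := Module.finite_of_finite (ZMod p)
  have := Fintype.ofFinite K₀
  have hK₀ : Fintype.card K₀ = p ^ f := by
    rw [Module.card_eq_pow_finrank (K := ZMod p), hfin, ZMod.card]
  obtain ⟨K, _, _, hfin2⟩ := exists_field K₀ two_pos
  have : Module.Finite K₀ K := Module.finite_of_finrank_pos (by rw [hfin2]; exact two_pos)
  have : Finite K := Module.finite_of_finite K₀
  have := Fintype.ofFinite K
  have hKK : Fintype.card K = Fintype.card K₀ ^ 2 := by
    rw [Module.card_eq_pow_finrank (K := K₀), hfin2]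
  have hK : Fintype.card K = p ^ (2 * f) := by rw [hKK, hK₀, ← pow_mul, mul_comm]
  obtain ⟨τ, hτ, htr⟩ := H.trace_formula (2 * f) K hK
  rw [← hK] at hτ
  have t1 := htr a b hne hdeg ha2 hb2 (stable_of H ha2 hb2)
  have hQ0 : ((p : L) ^ f) ^ 2 ≠ 0 :=
    pow_ne_zero _ (pow_ne_zero _ (Nat.cast_ne_zero.2 hp.out.ne_zero))
  have hst : ∀ y ∈ H.W a b, (H.Fr ^ f) y ∈ H.W (-a) (-b) := by
    intro y hy
    have h := stable_pow H f a b y hy
    rwa [ha, hb] at h
  have hst' : ∀ y ∈ H.W (-a) (-b), (H.Fr ^ f) y ∈ H.W a b := by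
    intro y hy
    have h := stable_pow H f (-a) (-b) y hy
    rwa [mul_neg, mul_neg, ha, hb, neg_neg, neg_neg] at h
  -- the image of the part is its dual
  have hsurj : ∀ w ∈ H.W (-a) (-b), ∃ y ∈ H.W a b, (H.Fr ^ f) y = w := by
    have hinj : Function.Injective (H.Fr ^ f) := by
      rw [End.coe_pow]
      exact H.injective.iterate _
    intro w hw
    -- the restriction of `Fr ^ (2 f)` to the dual part is injective, hence surjective
    let T : End L (H.W (-a) (-b)) := ((H.Fr ^ f) ∘ₗ (H.Fr ^ f)).restrict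
      (fun y hy => hst _ (hst' y hy))
    have hTi : Function.Injective T := by
      intro y z hyz
      have h := congrArg Subtype.val hyz
      exact Subtype.ext (hinj (hinj h))
    obtain ⟨y, hy⟩ := LinearMap.injective_iff_surjective.1 hTi ⟨w, hw⟩
    exact ⟨(H.Fr ^ f) (y : V), hst' _ y.2, congrArg Subtype.val hy⟩
  have h1 := self_trace (T := (H.Fr ^ (2 * f)).restrict (stable_of H ha2 hb2))
    (H.B.compl₁₂ (H.W a b).subtype ((H.Fr ^ f) ∘ₗ (H.W a b).subtype)) hQ0
    (fun y z => by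
      change H.B ((H.Fr ^ (2 * f)) (y : V)) ((H.Fr ^ f) (z : V)) =
        ((p : L) ^ f) ^ 2 * H.B (z : V) ((H.Fr ^ f) (y : V))
      rw [two_mul, pow_add, End.mul_apply, similitude_pow, H.symm])
    (fun y hy => Subtype.ext (H.perfect a b y y.2 fun w hw => by
      obtain ⟨z, hz, rfl⟩ := hsurj w hw
      exact hy ⟨z, hz⟩)) (H.finrank_le a b) hx hx'
  refine hbad K₀ K τ hK₀ hKK hτ (by rw [hK]; exact kill hp0 ha2) (by rw [hK]; exact kill hp0 hb2)
    hdeg ?_
  have h2 : ((Fintype.card K : ℕ) : L) = ((p : L) ^ f) ^ 2 := by rw [hKK, hK₀]; push_cast; rfl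
  rw [h2, ← h1, t1]
  rfl

omit hp in
theorem neg_of_dvd {f : ℕ} (h : n ∣ p ^ f + 1) (a : ZMod n) : (p : ZMod n) ^ f * a = -a := by
  have h1 : ((p ^ f + 1 : ℕ) : ZMod n) = 0 := (ZMod.natCast_eq_zero_iff _ _).2 h
  push_cast at h1
  linear_combination a * h1

/-- the pure case with an odd exponent -/
theorem case_pure (H : LegendreFermatH2 p n L V) (hp4 : p % 4 = 3) {f : ℕ} (hf : Odd f)
    (h : n ∣ p ^ f + 1) (a b : ZMod n) : H.W a b ≤ ⨆ c, H.Fr.eigenspace c := by
  refine self_dual H hf.pos (neg_of_dvd h a) (neg_of_dvd h b) ?_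
  intro K₀ K _ _ _ _ _ _ τ hK₀ hKK hτ hKa hKb hdeg hS
  rw [not_or, not_or] at hdeg
  obtain ⟨hda, hdb, hdab⟩ := hdeg
  have hK : Fintype.card K = p ^ (f * 2) := by rw [hKK, hK₀, ← pow_mul]
  have hr : ringChar K ≠ 2 := ringChar_ne (by omega) hK
  have hη1 : eta K L ≠ 1 := eta_ne_one hr
  have hη : (eta K L).IsQuadratic := eta_quadratic
  have hK4 : Fintype.card K₀ % 4 = 3 := by
    obtain ⟨k, hk⟩ := hf
    rw [hK₀, hk, pow_succ, pow_mul, Nat.mul_mod, Nat.pow_mod, Nat.pow_mod p, hp4]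
    norm_num
  have hz : ∀ a : ZMod n, ((Fintype.card K₀ + 1 : ℕ) : ZMod n) * a = 0 := by
    intro a
    rw [hK₀, (ZMod.natCast_eq_zero_iff _ _).2 h, zero_mul]
  exact leg_pure hKK hr hK4 (ch_trivialOn hKK hKa (hz a)) (ch_trivialOn hKK hKb (hz b))
    (ch_ne_one hτ hKa hda) (ch_ne_one hτ hKb hdb)
    (ch_mul_ne hτ hKa hKb hη1 hη.sq_eq_one hdab) hS

/-- the pure case for a power of an odd prime -/
theorem case_prime_power (H : LegendreFermatH2 p n L V) (hp2 : p ≠ 2) {f r e : ℕ} (hf : 0 < f)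
    (hr : r.Prime) (hr2 : r ≠ 2) (hn : n = r ^ e) (h : n ∣ p ^ f + 1) (a b : ZMod n) :
    H.W a b ≤ ⨆ c, H.Fr.eigenspace c := by
  refine self_dual H hf (neg_of_dvd h a) (neg_of_dvd h b) ?_
  intro K₀ K _ _ _ _ _ _ τ hK₀ hKK hτ hKa hKb hdeg hS
  rw [not_or, not_or] at hdeg
  obtain ⟨hda, hdb, hdab⟩ := hdeg
  have hK : Fintype.card K = p ^ (f * 2) := by rw [hKK, hK₀, ← pow_mul]
  have hrc : ringChar K ≠ 2 := ringChar_ne hp2 hK
  have : Fact r.Prime := ⟨hr⟩
  have hodd : Fintype.card K₀ % 2 = 1 := by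
    rw [hK₀]
    exact Nat.odd_iff.1 ((hp.out.odd_of_ne_two hp2).pow)
  have he : e ≠ 0 := by
    rintro rfl
    apply hda
    have h1 : Subsingleton (ZMod n) := by
      rw [hn, pow_zero]
      infer_instance
    exact Subsingleton.elim _ _
  have hrd : r ∣ Fintype.card K₀ + 1 := by
    rw [hK₀]
    exact ((dvd_pow_self r he).trans (dvd_of_eq hn.symm)).trans h
  have hneg : quadraticChar K (-1) = 1 := by
    rw [quadraticChar_one_iff_isSquare (neg_ne_zero.2 one_ne_zero),
      FiniteField.isSquare_neg_one_iff, hKK]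
    obtain ⟨k, hk⟩ : ∃ k, Fintype.card K₀ = 2 * k + 1 := ⟨Fintype.card K₀ / 2, by omega⟩
    rw [hk]
    have : (2 * k + 1) ^ 2 = 4 * (k * k + k) + 1 := by ring
    omega
  have hmod : Fintype.card K % r = 1 := by
    obtain ⟨s, hs⟩ := hrd
    have h1 : Fintype.card K = r * ((Fintype.card K₀ - 1) * s) + 1 := by
      obtain ⟨c, hc⟩ : ∃ c, Fintype.card K₀ = c + 1 :=
        ⟨Fintype.card K₀ - 1, by have := Fintype.card_pos (α := K₀); omega⟩
      rw [hc] at hs ⊢
      rw [hKK, hc, Nat.add_sub_cancel]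
      calc (c + 1) ^ 2 = c * (c + 1 + 1) + 1 := by ring
        _ = r * (c * s) + 1 := by rw [hs]; ring
    rw [h1, Nat.mul_add_mod, Nat.mod_eq_of_lt hr.one_lt]
  have hkill : ∀ a : ZMod n, ((r ^ e : ℕ) : ZMod n) * a = 0 := by
    intro a
    rw [← hn, ZMod.natCast_self, zero_mul]
  exact leg_residue hr2 hrc hneg (ch_pow hτ hKa (hkill a)) (ch_pow hτ hKb (hkill b)) hmod hS

/-- the case of a split prime for which `2` is not an `r`-th power -/
theorem case_split (H : LegendreFermatH2 p n L V) (hp2 : p ≠ 2) {r e : ℕ} (hr : r.Prime)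
    (hr2 : r ≠ 2) (hn : n = r ^ e) (h : n ∣ p - 1) (hpow : (2 : ZMod p) ^ ((p - 1) / r) ≠ 1)
    (hsep : H.Separated) (a b : ZMod n) : H.W a b ≤ ⨆ c, H.Fr.eigenspace c := by
  have hp0 : 0 < p := hp.out.pos
  have hp1 : (p : ZMod n) = 1 := by
    have h1 : ((p - 1 : ℕ) : ZMod n) = 0 := (ZMod.natCast_eq_zero_iff _ _).2 h
    rw [Nat.cast_sub hp0, sub_eq_zero] at h1
    rw [h1, Nat.cast_one]
  have hst : ∀ a : ZMod n, (p : ZMod n) ^ 1 * a = a := by
    intro a
    rw [hp1, one_pow, one_mul]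
  have hodd : p % 2 = 1 := Nat.odd_iff.1 (hp.out.odd_of_ne_two hp2)
  by_cases hp4 : p % 4 = 3
  · exact case_odd H hp4 odd_one (hst a) (hst b)
  refine part H one_pos (hst a) (hst b) ?_
  intro hne hdeg x c hx hx'
  have hK : Fintype.card (ZMod p) = p ^ 1 := by rw [ZMod.card, pow_one]
  obtain ⟨τ, hτ, hc, h1, h2⟩ := dual_traces H (hst a) (hst b) hne hdeg hx hx' (ZMod p) hK
  have hKa : ((Fintype.card (ZMod p) - 1 : ℕ) : ZMod n) * a = 0 := by
    rw [hK]; exact kill hp0 (hst a)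
  have hKb : ((Fintype.card (ZMod p) - 1 : ℕ) : ZMod n) * b = 0 := by
    rw [hK]; exact kill hp0 (hst b)
  rw [not_or, not_or] at hdeg
  obtain ⟨hda, hdb, hdab⟩ := hdeg
  have hrc : ringChar (ZMod p) ≠ 2 := ringChar_ne hp2 hK
  have hneg : quadraticChar (ZMod p) (-1) = 1 := by
    rw [quadraticChar_one_iff_isSquare (neg_ne_zero.2 one_ne_zero),
      FiniteField.isSquare_neg_one_iff, ZMod.card]
    exact hp4
  have : Fact r.Prime := ⟨hr⟩
  have hsep' := hsep a b hne
  -- the order of the part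
  have hex : ∃ j : ℕ, ((r ^ j : ℕ) : ZMod n) * (a - b) = 0 :=
    ⟨e, by rw [← hn, ZMod.natCast_self, zero_mul]⟩
  classical
  obtain ⟨j, hj⟩ : ∃ j, Nat.find hex = j + 1 := by
    refine ⟨Nat.find hex - 1, ?_⟩
    have h3 : Nat.find hex ≠ 0 := by
      intro h0
      have h4 := Nat.find_spec hex
      rw [h0, pow_zero] at h4
      have h5 := hsep' 1 h4
      rw [Nat.cast_one, one_mul] at h5
      exact hda h5
    omega
  have hspec := Nat.find_spec hex
  have hmin := Nat.find_min hex (m := j) (by omega)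
  rw [hj] at hspec
  have hja := hsep' _ hspec
  have hjb : ((r ^ (j + 1) : ℕ) : ZMod n) * b = 0 := by
    linear_combination hja - hspec
  have hle : j + 1 ≤ e := by
    rw [← hj]
    exact Nat.find_min' hex (by rw [← hn, ZMod.natCast_self, zero_mul])
  have hrn : r ^ (j + 1) ∣ Fintype.card (ZMod p) - 1 := by
    rw [ZMod.card]
    exact ((pow_dvd_pow r hle).trans (dvd_of_eq hn.symm)).trans h
  have hrK : r ∣ Fintype.card (ZMod p) - 1 := (dvd_pow_self r (Nat.succ_ne_zero j)).trans hrn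
  have hξ := ch_sixteen hr hr2 hτ hKa hKb hja hjb hmin hrK (Ring.two_ne_zero hrc)
    (by rw [ZMod.card]; exact hpow)
  refine leg_dual hr2 (Nat.succ_pos j) hrc hneg (ch_pow hτ hKa hja) (ch_pow hτ hKb hjb)
    (ch_ne_one hτ hKa hda) (ch_ne_one hτ hKb hdb) hrn hξ ?_
  rw [h1, h2]
  field_simp
  ring

end

/-- for a prime `n` the condition on the parts holds -/
theorem separated_of_prime {p n : ℕ} {L V : Type} [Field L] [AddCommGroup V] [Module L V]
    (H : LegendreFermatH2 p n L V) (hn : n.Prime) : H.Separated := by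
  intro a b hne d hd
  have : Fact n.Prime := ⟨hn⟩
  rcases mul_eq_zero.1 hd with h | h
  · rw [h, zero_mul]
  · exfalso
    apply hne
    rw [sub_eq_zero.1 h]
    exact H.diagonal b

/-- half of an even order modulo a power of an odd prime -/
theorem exists_half {p r e : ℕ} (hr : r.Prime) (hr2 : r ≠ 2) (hpn : p.Coprime (r ^ e))
    (h : Even (orderOf (p : ZMod (r ^ e)))) : ∃ f, 0 < f ∧ r ^ e ∣ p ^ f + 1 := by
  obtain ⟨f, hf⟩ := h
  have : NeZero (r ^ e) := ⟨pow_ne_zero _ hr.ne_zero⟩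
  have hu : IsUnit (p : ZMod (r ^ e)) := (ZMod.isUnit_iff_coprime p (r ^ e)).2 hpn
  have hpos : 0 < orderOf (p : ZMod (r ^ e)) := by
    obtain ⟨u, hu⟩ := hu
    rw [← hu, orderOf_units]
    exact orderOf_pos u
  have hf0 : 0 < f := by omega
  refine ⟨f, hf0, ?_⟩
  have h1 : (p : ZMod (r ^ e)) ^ (f + f) = 1 := by rw [← hf, pow_orderOf_eq_one]
  have h2 : (p : ZMod (r ^ e)) ^ f ≠ 1 := by
    intro h2
    have h3 := Nat.le_of_dvd hf0 (orderOf_dvd_of_pow_eq_one h2)
    omega
  have hp1 : 1 ≤ p ^ f := by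
    apply Nat.one_le_pow
    rcases Nat.eq_zero_or_pos p with h0 | h0
    · exfalso
      rw [h0, Nat.cast_zero, zero_pow (by omega)] at h1
      have h4 : (0 : ZMod (r ^ e)) ^ f = 1 := by rw [zero_pow hf0.ne', h1]
      rw [h0, Nat.cast_zero] at h2
      exact h2 h4
    · exact h0
  have h5 : r ^ e ∣ (p ^ f - 1) * (p ^ f + 1) := by
    rw [← ZMod.natCast_eq_zero_iff, Nat.cast_mul, Nat.cast_sub hp1]
    push_cast
    rw [pow_add] at h1
    linear_combination h1
  by_cases h6 : r ∣ p ^ f - 1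
  · have h7 : ¬ r ∣ p ^ f + 1 := by
      intro h7
      have h8 : r ∣ 2 := by
        have := Nat.dvd_sub h7 h6
        have e1 : p ^ f + 1 - (p ^ f - 1) = 2 := by omega
        rwa [e1] at this
      exact hr2 ((Nat.prime_dvd_prime_iff_eq hr Nat.prime_two).1 h8)
    exfalso
    have h9 : r ^ e ∣ p ^ f - 1 :=
      ((Nat.Coprime.pow_left e ((Nat.Prime.coprime_iff_not_dvd hr).2 h7))).dvd_of_dvd_mul_right h5
    apply h2
    rw [← ZMod.natCast_eq_zero_iff, Nat.cast_sub hp1] at h9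
    push_cast at h9
    linear_combination h9
  · exact ((Nat.Coprime.pow_left e ((Nat.Prime.coprime_iff_not_dvd hr).2 h6))).dvd_of_dvd_mul_left
      h5

/-- Frobenius is semisimple on the second cohomology. -/
theorem result {p n : ℕ} [Fact p.Prime] [NeZero n] (hp : p ≠ 2) (hpn : p.Coprime n)
    {L V : Type} [Field L] [CharZero L] [IsAlgClosed L] [AddCommGroup V] [Module L V]
    [FiniteDimensional L V] (H : LegendreFermatH2 p n L V)
    (h : (p % 4 = 3 ∧ Odd (orderOf (p : ZMod n))) ∨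
      (p % 4 = 3 ∧ ∃ f, Odd f ∧ n ∣ p ^ f + 1) ∨
      ∃ r e, r.Prime ∧ r ≠ 2 ∧ n = r ^ e ∧
        (Even (orderOf (p : ZMod n)) ∨
          n ∣ p - 1 ∧ (2 : ZMod p) ^ ((p - 1) / r) ≠ 1 ∧ (e = 1 ∨ H.Separated))) :
    H.Fr.IsSemisimple := by
  apply semisimple_of_iSup
  rw [eq_top_iff, ← H.span]
  refine sup_le (le_of_semisimple H.N_stable H.N_semisimple)
    (iSup_le fun a => iSup_le fun b => ?_)
  rcases h with ⟨h4, hodd⟩ | ⟨h4, f, hf, hn⟩ | ⟨r, e, hr, hr2, hn, h | ⟨h1, h2, h3⟩⟩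
  · have h1 : ∀ a : ZMod n, (p : ZMod n) ^ orderOf (p : ZMod n) * a = a := by
      intro a
      rw [pow_orderOf_eq_one, one_mul]
    exact case_odd H h4 hodd (h1 a) (h1 b)
  · exact case_pure H h4 hf hn a b
  · subst hn
    obtain ⟨f, hf, hd⟩ := exists_half hr hr2 hpn h
    exact case_prime_power H hp hf hr hr2 rfl hd a b
  · refine case_split H hp hr hr2 hn h1 h2 ?_ a b
    rcases h3 with h3 | h3
    · rw [h3, pow_one] at hn
      exact separated_of_prime H (hn ▸ hr)
    · exact h3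

end Pool.Agent.Results.MP_1fe969_ag.LegendreFermat
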