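import Pool.Agent.Helper73.KT.Part
import Pool.Agent.Helper73.LF.Lin
import Pool.Agent.Helper73.LF.Chars
import Pool.Agent.Helper73.QC.Add
import Pool.Agent.Helper73.QC.Res
import Pool.Agent.Helper73.QC.Two
import Pool.Agent.Helper73.QC.NonRes
import Pool.Agent.Helper73.QC.Orbit
import Pool.Agent.Helper40.KM.Pentagon
import Pool.Agent.Helper40.KM.Finite
import Pool.Agent.Helper44.KM.ThreeNe
import Pool.Agent.Helper79.KM.Perm
import Pool.Agent.Helper40.QC.K5
import Pool.Agent.Helper44.QC.SelfAny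
import Pool.Agent.Helper73.QC.Par
import Pool.Agent.Helper73.QC.Dich
import Pool.Agent.Helper79.KM.Kum7
import Pool.Agent.Helper40.QC.Square
import Pool.Agent.Helper41.KW.ClassifyAll
import Pool.Agent.Helper79.KM.EightNe

/-!
# Frobenius on the second cohomology of the covers of the plane branched along a complete
# quadrilateral

`QuadrilateralH2 p n L V` lists properties of the geometric Frobenius on `V = H²(X̄, L)`,
`L = \bar ℚ_ℓ`, for a smooth projective surface `X` over the field of `p` elements which is an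
abelian cover of exponent `n` of the plane, ramified only along the six lines of a complete
quadrilateral, for instance for the surface with the equation
`z ^ n = x ^ a (1 - x) ^ b y ^ c (1 - y) ^ d (x - y) ^ e`.  The complement `M` of the six lines is
the moduli space of five points on the projective line.

`result`: Frobenius is semisimple for ALL these covers if the exponent `n` is a power of an odd prime
`r`, `p` of even order modulo `r` (`prime_power`), or twice such a power and `p` is three modulo four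
(`two_prime_power`), or if `n` is a prime and satisfies one of four conditions; for every `n` it is
semisimple if every character satisfies `SelfDual` or `NonResidue`, which does not depend on `p`.
-/

open Module

namespace Pool.Agent.Results.MP_1fe969_ag.PrimeExponents

open Pool.Agent.Helper73.KT Pool.Agent.Helper73.LF Pool.Agent.Helper73.QC

/-- the sum over the points of the complement of the quadrilateral -/
noncomputable def quadSum {K L : Type} [Field K] [Fintype K] [Field L]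
    (χ : Fin 5 → MulChar K L) : L :=
  ∑ x : K, ∑ y : K, χ 0 x * χ 1 (1 - x) * χ 2 y * χ 3 (1 - y) * χ 4 (x - y)

/-- the exponents of `x ^ a 0 * (1 - x) ^ a 1 * y ^ a 2 * (1 - y) ^ a 3 * (x - y) ^ a 4` along the
ten curves at the boundary of the moduli space of five points on the projective line -/
def residues {R : Type} [CommRing R] (a : Fin 5 → R) : Fin 10 → R :=
  ![a 0, a 1, a 2, a 3, a 4, -(a 0 + a 1 + a 4), -(a 2 + a 3 + a 4), a 0 + a 2 + a 4,
    a 1 + a 3 + a 4, -(a 0 + a 1 + a 2 + a 3 + a 4)]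

/-- the power of the character `τ` with exponent `(q - 1) a / n`, `q` the number of elements -/
noncomputable def power {K L : Type} [Field K] [Fintype K] [Field L] {n : ℕ} (τ : MulChar K L)
    (a : ZMod n) : MulChar K L := τ ^ ((Fintype.card K - 1) * a.val / n)

/-- Frobenius on `V = H²(X̄, L)` and the parts of `V` belonging to the characters of the group of
the cover. -/
structure QuadrilateralH2 (p n : ℕ) (L V : Type) [Field L] [AddCommGroup V] [Module L V] where
  /-- the geometric Frobenius -/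
  Fr : End L V
  injective : Function.Injective Fr
  /-- the cup product -/
  B : LinearMap.BilinForm L V
  symm : ∀ x y, B x y = B y x
  similitude : ∀ x y, B (Fr x) (Fr y) = (p : L) ^ 2 * B x y
  /-- the span of algebraic classes -/
  N : Submodule L V
  N_stable : ∀ x ∈ N, Fr x ∈ N
  N_semisimple : End.IsSemisimple (Fr.restrict N_stable)
  /-- the part belonging to the character with the exponents `a` -/
  W : (Fin 5 → ZMod n) → Submodule L V
  span : N ⊔ ⨆ a, W a = ⊤
  stable : ∀ a, ∀ x ∈ W a, Fr x ∈ W (fun i => p * a i)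
  perfect : ∀ a, ∀ v ∈ W a, (∀ w ∈ W (-a), B v w = 0) → v = 0
  finrank_le : ∀ a, finrank L (W a) ≤ 2
  /-- the character is unramified along one of the ten curves and its square is not trivial -/
  finrank_le_one : ∀ a, (∃ i, residues a i = 0) → (∃ i, 2 * a i ≠ 0) → finrank L (W a) ≤ 1
  /-- the trace formula -/
  trace_formula : ∀ (m : ℕ) (K : Type) [Field K] [Fintype K],
    Fintype.card K = p ^ m → ∃ τ : MulChar K L, orderOf τ = p ^ m - 1 ∧
      ∀ a, W a ≠ ⊥ → (∀ i, residues a i ≠ 0) → (∀ i, (p : ZMod n) ^ m * a i = a i) →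
        ∀ h : ∀ x ∈ W a, (Fr ^ m) x ∈ W a,
          LinearMap.trace L (W a) ((Fr ^ m).restrict h) = quadSum fun i => power τ (a i)

/-- A power of `p` maps the exponents to their negatives, and one of the ten exponents is killed by
a power of an odd prime `r`. -/
def SelfDual (p : ℕ) {n : ℕ} (a : Fin 5 → ZMod n) : Prop :=
  ∃ f r j : ℕ, r.Prime ∧ r ≠ 2 ∧ (∀ i, (p : ZMod n) ^ f * a i = -a i) ∧
    ∃ i, (r : ZMod n) ^ j * residues a i = 0

/-- The exponents are `c` times integers such that minus the product of the ten exponents is not a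
square modulo an odd prime `r`, `n = c r ^ k`. -/
def NonResidue {n : ℕ} (a : Fin 5 → ZMod n) : Prop :=
  ∃ (r k c : ℕ) (v : Fin 5 → ℤ), r.Prime ∧ r ≠ 2 ∧ 0 < k ∧ n = c * r ^ k ∧
    (∀ i, a i = ((c * v i : ℤ) : ZMod n)) ∧ ¬ IsSquare ((-∏ i, residues v i : ℤ) : ZMod r)

/-- For a field with `p ^ m` elements, `r` a divisor of `p ^ m - 1`, and an index modulo `r` the sum
of `ind x ^ 2 * ind (1 - x)` over the elements `x` is not zero modulo `r`. -/
def Kummer (p r : ℕ) : Prop :=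
  ∃ (m : ℕ) (K : Type) (_ : Field K) (_ : Fintype K) (ind : K → ZMod r),
    Fintype.card K = p ^ m ∧ r ∣ p ^ m - 1 ∧
      (∀ x y, x ≠ 0 → y ≠ 0 → ind (x * y) = ind x + ind y) ∧ ∑ x, ind x ^ 2 * ind (1 - x) ≠ 0

/-- For a field with `p ^ m` elements, `r` a divisor of `p ^ m - 1`, and an index modulo `r` the
sums of `ind x ^ 2 * ind (1 - x)` and of `ind x ^ 4 * ind (1 - x)` over the elements `x` are not zero
modulo `r`. -/
def Kummer₂ (p r : ℕ) : Prop :=
  ∃ (m : ℕ) (K : Type) (_ : Field K) (_ : Fintype K) (ind : K → ZMod r),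
    Fintype.card K = p ^ m ∧ r ∣ p ^ m - 1 ∧
      (∀ x y, x ≠ 0 → y ≠ 0 → ind (x * y) = ind x + ind y) ∧
        ∑ x, ind x ^ 2 * ind (1 - x) ≠ 0 ∧ ∑ x, ind x ^ 4 * ind (1 - x) ≠ 0

/-! Notions used in the proof -/

/-- the sum of the representatives of the ten exponents in `[0, n)`, divided by `n` -/
def height {n : ℕ} (a : Fin 5 → ZMod n) : ℕ := (∑ i, (residues a i).val) / n

/-- A power `p ^ m` fixes the exponents, and the sum of `1 + height` over the multiples of the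
exponents by `h p ^ j`, `j < m`, is odd for a unit `h`. -/
def OddPlace (p : ℕ) {n : ℕ} (a : Fin 5 → ZMod n) : Prop :=
  ∃ m, 0 < m ∧ (∀ i, (p : ZMod n) ^ m * a i = a i) ∧ ∃ h : (ZMod n)ˣ,
    Odd (m + ∑ j ∈ Finset.range m, height fun i => (h : ZMod n) * (p : ZMod n) ^ j * a i)

def Dual (p : ℕ) {n : ℕ} (a : Fin 5 → ZMod n) : Prop :=
  ∃ f r j : ℕ, r.Prime ∧ r ≠ 2 ∧ (∀ i, (p : ZMod n) ^ f * a i = -a i) ∧
    ((∃ i, (r : ZMod n) ^ j * residues a i = 0) ∨
      p % 4 = 3 ∧ ∀ i, 2 * (r : ZMod n) ^ j * a i = 0)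

theorem of_dual {p n : ℕ} {a : Fin 5 → ZMod n}
    (h : Pool.Agent.Helper73.QC.SelfDual p a ∨ Pool.Agent.Helper73.QC.OddPlace p a) :
    Dual p a ∨ OddPlace p a := by
  rcases h with ⟨f, r, j, hr, hr2, hf, -, hi⟩ | h
  · exact Or.inl ⟨f, r, j, hr, hr2, hf, Or.inl hi⟩
  · exact Or.inr h

section

variable {p n : ℕ} {L V : Type} [Field L] [AddCommGroup V] [Module L V]

theorem stable_pow (H : QuadrilateralH2 p n L V) (j : ℕ) (a : Fin 5 → ZMod n) :
    ∀ x ∈ H.W a, (H.Fr ^ j) x ∈ H.W (fun i => (p : ZMod n) ^ j * a i) := by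
  induction j with
  | zero =>
    intro x hx
    simp only [pow_zero, one_mul]
    exact hx
  | succ j ih =>
    intro x hx
    have h := H.stable _ _ (ih x hx)
    simp only [← mul_assoc, ← pow_succ'] at h
    rw [pow_succ' H.Fr]
    exact h

theorem stable_of (H : QuadrilateralH2 p n L V) {m : ℕ} {a : Fin 5 → ZMod n}
    (ha : ∀ i, (p : ZMod n) ^ m * a i = a i) : ∀ x ∈ H.W a, (H.Fr ^ m) x ∈ H.W a := by
  intro x hx
  have h := stable_pow H m a x hx
  rwa [funext ha] at h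

theorem similitude_pow (H : QuadrilateralH2 p n L V) (j : ℕ) (x y : V) :
    H.B ((H.Fr ^ j) x) ((H.Fr ^ j) y) = ((p : L) ^ j) ^ 2 * H.B x y := by
  induction j generalizing x y with
  | zero => simp
  | succ j ih =>
    rw [pow_succ, End.mul_apply, End.mul_apply, ih, H.similitude, pow_succ]
    ring

theorem ne_bot_neg (H : QuadrilateralH2 p n L V) {a : Fin 5 → ZMod n} (h : H.W a ≠ ⊥) :
    H.W (-a) ≠ ⊥ := by
  intro h0
  apply h
  rw [eq_bot_iff]
  intro v hv
  rw [Submodule.mem_bot]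
  apply H.perfect a v hv
  intro w hw
  rw [h0, Submodule.mem_bot] at hw
  rw [hw, map_zero]

variable [CharZero L] [IsAlgClosed L] [FiniteDimensional L V]

/-- a part belonging to a character of order two -/
theorem case_two (H : QuadrilateralH2 p n L V) (hp : p.Prime) (hpn : p.Coprime n)
    {a : Fin 5 → ZMod n} (h2 : ∀ i, 2 * a i = 0) : H.W a ≤ ⨆ c, H.Fr.eigenspace c := by
  have hneg : -a = a := by
    funext i
    rw [Pi.neg_apply]
    linear_combination - h2 i
  have hpa : ∀ i, (p : ZMod n) ^ 1 * a i = a i := by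
    intro i
    rw [pow_one]
    rcases hp.eq_two_or_odd' with h | ⟨j, hj⟩
    · -- `2` is a unit
      have h3 : IsUnit (2 : ZMod n) := by
        have := (ZMod.isUnit_iff_coprime p n).2 hpn
        rw [h] at this
        exact_mod_cast this
      have h4 : a i = 0 := h3.mul_right_eq_zero.1 (h2 i)
      rw [h4, mul_zero]
    · rw [hj]
      push_cast
      linear_combination (j : ZMod n) * h2 i
  refine le_of_restrict H.injective one_pos (stable_of H hpa) ?_
  intro x c hx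
  by_contra hx'
  have hc : ((p : L) ^ 1) ^ 2 ≠ 0 := pow_ne_zero _ (pow_ne_zero _ (Nat.cast_ne_zero.2 hp.ne_zero))
  exact symm_no_block (T := (H.Fr ^ 1).restrict (stable_of H hpa))
    (H.B.compl₁₂ (H.W a).subtype (H.W a).subtype) hc
    (fun y z => similitude_pow H 1 (y : V) (z : V)) (fun y z => H.symm _ _)
    (fun y hy => Subtype.ext (H.perfect a y y.2 fun w hw => by
      rw [hneg] at hw
      exact hy ⟨w, hw⟩)) (H.finrank_le a) hx hx'

/-- a part on which a power of Frobenius has no Jordan block -/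
theorem part (H : QuadrilateralH2 p n L V) {m : ℕ} (hm : 0 < m) {a : Fin 5 → ZMod n}
    (h2 : ∃ i, 2 * a i ≠ 0) (ha : ∀ i, (p : ZMod n) ^ m * a i = a i)
    (hbad : H.W a ≠ ⊥ → (∀ i, residues a i ≠ 0) →
      ∀ (x : H.W a) (c : L), ((H.Fr ^ m).restrict (stable_of H ha) - c • 1)
        (((H.Fr ^ m).restrict (stable_of H ha) - c • 1) x) = 0 →
          ((H.Fr ^ m).restrict (stable_of H ha) - c • 1) x ≠ 0 → False) :
    H.W a ≤ ⨆ c, H.Fr.eigenspace c := by
  refine le_of_restrict H.injective hm (stable_of H ha) ?_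
  intro x c hx
  by_contra hx'
  have h2' := two_le hx hx'
  have hne : H.W a ≠ ⊥ := by
    intro h0
    rw [h0, finrank_bot] at h2'
    omega
  refine hbad hne ?_ x c hx hx'
  by_contra hdeg
  push Not at hdeg
  have := H.finrank_le_one a hdeg h2
  omega

end

section

variable {p n : ℕ} [hp : Fact p.Prime] [NeZero n] {L V : Type} [Field L] [AddCommGroup V]
    [Module L V] [CharZero L] [IsAlgClosed L] [FiniteDimensional L V]

omit [NeZero n] in
theorem kill {m : ℕ} {a : ZMod n} (ha : (p : ZMod n) ^ m * a = a) :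
    ((p ^ m - 1 : ℕ) : ZMod n) * a = 0 := by
  rw [Nat.cast_sub (Nat.one_le_pow _ _ hp.out.pos), Nat.cast_one, Nat.cast_pow, sub_mul, ha,
    one_mul, sub_self]

omit hp [NeZero n] in
theorem exists_addChar (L : Type) [Field L] [CharZero L] [IsAlgClosed L] (K : Type) [Field K]
    [Fintype K] : ∃ ψ : AddChar K L, ψ.IsPrimitive := by
  have h : ringChar L ≠ ringChar K := by
    rw [ringChar.eq_zero]
    intro h
    have : CharP K 0 := by
      rw [h]
      exact ringChar.charP K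
    have : CharZero K := CharP.charP_to_charZero K
    exact not_injective_infinite_finite (Nat.cast : ℕ → K) Nat.cast_injective
  let ψ := AddChar.FiniteField.primitiveChar K L h
  have hcyc : IsCyclotomicExtension {(ψ.n : ℕ)} L (CyclotomicField ψ.n L) :=
    CyclotomicField.isCyclotomicExtension ψ.n L
  have hfin : FiniteDimensional L (CyclotomicField ψ.n L) :=
    IsCyclotomicExtension.finiteDimensional {(ψ.n : ℕ)} L (CyclotomicField ψ.n L)
  let φ : CyclotomicField ψ.n L →ₐ[L] L := IsAlgClosed.lift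
  exact ⟨_, ψ.prim.compMulHom_of_isPrimitive (f := (φ : CyclotomicField ψ.n L →* L)) φ.injective⟩

omit hp [NeZero n] in
theorem residues_neg (a : Fin 5 → ZMod n) (i : Fin 10) : residues (-a) i = - residues a i := by
  fin_cases i <;> simp [residues] <;> ring

omit hp [NeZero n] [CharZero L] [IsAlgClosed L] in
theorem quadSum_eq {K : Type} [Field K] [Fintype K] (τ : MulChar K L) (a : Fin 5 → ZMod n) :
    (quadSum fun i => power τ (a i)) =
      quad (ch τ (a 0)) (ch τ (a 1)) (ch τ (a 2)) (ch τ (a 3)) (ch τ (a 4)) := rfl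

omit [IsAlgClosed L] in
/-- the traces on a part and on the dual part if there is a Jordan block -/
theorem dual_traces (H : QuadrilateralH2 p n L V) {m : ℕ} {a : Fin 5 → ZMod n}
    (ha : ∀ i, (p : ZMod n) ^ m * a i = a i) (hne : H.W a ≠ ⊥)
    (hdeg : ∀ i, residues a i ≠ 0) {x : H.W a} {c : L}
    (hx : ((H.Fr ^ m).restrict (stable_of H ha) - c • 1)
        (((H.Fr ^ m).restrict (stable_of H ha) - c • 1) x) = 0)
    (hx' : ((H.Fr ^ m).restrict (stable_of H ha) - c • 1) x ≠ 0)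
    (K : Type) [Field K] [Fintype K] (hK : Fintype.card K = p ^ m) :
    ∃ τ : MulChar K L, orderOf τ = Fintype.card K - 1 ∧ c ≠ 0 ∧
      quad (ch τ (a 0)) (ch τ (a 1)) (ch τ (a 2)) (ch τ (a 3)) (ch τ (a 4)) = 2 * c ∧
      quad (ch τ (a 0))⁻¹ (ch τ (a 1))⁻¹ (ch τ (a 2))⁻¹ (ch τ (a 3))⁻¹ (ch τ (a 4))⁻¹ =
        2 * ((Fintype.card K : L) ^ 2 / c) := by
  obtain ⟨τ, hτ, htr⟩ := H.trace_formula m K hK
  rw [← hK] at hτ
  have hKa : ∀ i, ((Fintype.card K - 1 : ℕ) : ZMod n) * a i = 0 := by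
    intro i
    rw [hK]
    exact kill (ha i)
  have ha' : ∀ i, (p : ZMod n) ^ m * (-a) i = (-a) i := by
    intro i
    rw [Pi.neg_apply, mul_neg, ha]
  have hQ0 : ((p : L) ^ m) ^ 2 ≠ 0 :=
    pow_ne_zero _ (pow_ne_zero _ (Nat.cast_ne_zero.2 hp.out.ne_zero))
  have t1 := htr a hne hdeg ha (stable_of H ha)
  have t2 := htr (-a) (ne_bot_neg H hne) (fun i => by
    rw [residues_neg]
    exact neg_ne_zero.2 (hdeg i)) ha' (stable_of H ha')
  obtain ⟨hc, h1, h2⟩ := pair_trace (T := (H.Fr ^ m).restrict (stable_of H ha))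
    (T' := (H.Fr ^ m).restrict (stable_of H ha'))
    (H.B.compl₁₂ (H.W a).subtype (H.W (-a)).subtype) hQ0
    (fun y z => similitude_pow H m (y : V) (z : V))
    (fun y hy => Subtype.ext (H.perfect a y y.2 fun w hw => hy ⟨w, hw⟩))
    (fun z hz => Subtype.ext (H.perfect (-a) z z.2 fun w hw => by
      rw [neg_neg] at hw
      rw [H.symm]
      exact hz ⟨w, hw⟩)) (H.finrank_le a) hx hx'
  refine ⟨τ, hτ, hc, ?_, ?_⟩
  · rw [← h1, t1]
    rfl
  · rw [← ch_neg hτ (hKa 0), ← ch_neg hτ (hKa 1), ← ch_neg hτ (hKa 2), ← ch_neg hτ (hKa 3),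
      ← ch_neg hτ (hKa 4), hK, Nat.cast_pow, ← h2, t2]
    rfl

omit [NeZero n] in
/-- the trace on a part which is the image of its dual under a power of Frobenius -/
theorem self_dual (H : QuadrilateralH2 p n L V) {f : ℕ} (hf : 0 < f) {a : Fin 5 → ZMod n}
    (h2 : ∃ i, 2 * a i ≠ 0) (ha : ∀ i, (p : ZMod n) ^ f * a i = - a i)
    (hbad : ∀ (K : Type) [Field K] [Fintype K] (τ : MulChar K L),
      Fintype.card K = p ^ (2 * f) → orderOf τ = Fintype.card K - 1 →
          (∀ i, ((Fintype.card K - 1 : ℕ) : ZMod n) * a i = 0) → (∀ i, residues a i ≠ 0) →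
          quad (ch τ (a 0)) (ch τ (a 1)) (ch τ (a 2)) (ch τ (a 3)) (ch τ (a 4)) =
            -2 * Fintype.card K → False) :
    H.W a ≤ ⨆ c, H.Fr.eigenspace c := by
  classical
  have ha2 : ∀ i, (p : ZMod n) ^ (2 * f) * a i = a i := by
    intro i
    rw [two_mul, pow_add, mul_assoc, ha, mul_neg, ha, neg_neg]
  refine part H (by omega) h2 ha2 ?_
  intro hne hdeg x c hx hx'
  obtain ⟨K, _, _, hfin⟩ := exists_field (ZMod p) (show 0 < 2 * f by omega)
  have : Module.Finite (ZMod p) K := Module.finite_of_finrank_pos (by rw [hfin]; omega)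
  have : Finite K := Module.finite_of_finite (ZMod p)
  have := Fintype.ofFinite K
  have hK : Fintype.card K = p ^ (2 * f) := by
    rw [Module.card_eq_pow_finrank (K := ZMod p), hfin, ZMod.card]
  obtain ⟨τ, hτ, htr⟩ := H.trace_formula (2 * f) K hK
  rw [← hK] at hτ
  have t1 := htr a hne hdeg ha2 (stable_of H ha2)
  have hQ0 : ((p : L) ^ f) ^ 2 ≠ 0 :=
    pow_ne_zero _ (pow_ne_zero _ (Nat.cast_ne_zero.2 hp.out.ne_zero))
  have hfun : (fun i => (p : ZMod n) ^ f * a i) = -a := funext fun i => ha i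
  have hst : ∀ y ∈ H.W a, (H.Fr ^ f) y ∈ H.W (-a) := by
    intro y hy
    have h := stable_pow H f a y hy
    rwa [hfun] at h
  have hst' : ∀ y ∈ H.W (-a), (H.Fr ^ f) y ∈ H.W a := by
    intro y hy
    have h := stable_pow H f (-a) y hy
    have e : (fun i => (p : ZMod n) ^ f * (-a) i) = a := funext fun i => by
      rw [Pi.neg_apply, mul_neg, ha, neg_neg]
    rwa [e] at h
  -- the image of the part is its dual
  have hsurj : ∀ w ∈ H.W (-a), ∃ y ∈ H.W a, (H.Fr ^ f) y = w := by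
    have hinj : Function.Injective (H.Fr ^ f) := by
      rw [End.coe_pow]
      exact H.injective.iterate _
    intro w hw
    let T : End L (H.W (-a)) := ((H.Fr ^ f) ∘ₗ (H.Fr ^ f)).restrict
      (fun y hy => hst _ (hst' y hy))
    have hTi : Function.Injective T := by
      intro y z hyz
      have h := congrArg Subtype.val hyz
      exact Subtype.ext (hinj (hinj h))
    obtain ⟨y, hy⟩ := LinearMap.injective_iff_surjective.1 hTi ⟨w, hw⟩
    exact ⟨(H.Fr ^ f) (y : V), hst' _ y.2, congrArg Subtype.val hy⟩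
  have h1 := self_trace (T := (H.Fr ^ (2 * f)).restrict (stable_of H ha2))
    (H.B.compl₁₂ (H.W a).subtype ((H.Fr ^ f) ∘ₗ (H.W a).subtype)) hQ0
    (fun y z => by
      change H.B ((H.Fr ^ (2 * f)) (y : V)) ((H.Fr ^ f) (z : V)) =
        ((p : L) ^ f) ^ 2 * H.B (z : V) ((H.Fr ^ f) (y : V))
      rw [two_mul, pow_add, End.mul_apply, similitude_pow, H.symm])
    (fun y hy => Subtype.ext (H.perfect a y y.2 fun w hw => by
      obtain ⟨z, hz, rfl⟩ := hsurj w hw
      exact hy ⟨z, hz⟩)) (H.finrank_le a) hx hx'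
  refine hbad K τ hK hτ (fun i => by rw [hK]; exact kill (ha2 i)) hdeg ?_
  have h3 : ((Fintype.card K : ℕ) : L) = ((p : L) ^ f) ^ 2 := by
    rw [hK, ← pow_mul, mul_comm f 2]
    push_cast
    rfl
  rw [h3, ← h1, t1]
  rfl


/-- the self-dual case -/
theorem case_self (H : QuadrilateralH2 p n L V) {a : Fin 5 → ZMod n}
    (h2 : ∃ i, 2 * a i ≠ 0) (h : Dual p a) : H.W a ≤ ⨆ c, H.Fr.eigenspace c := by
  classical
  obtain ⟨f, r, j, hr, hr2, hf, hcase⟩ := h
  have : Fact r.Prime := ⟨hr⟩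
  have hf0 : 0 < f := by
    rcases f.eq_zero_or_pos with h | h
    · exfalso
      obtain ⟨i, hi⟩ := h2
      apply hi
      have h3 := hf i
      rw [h, pow_zero, one_mul] at h3
      linear_combination h3
    · exact h
  refine self_dual H hf0 h2 hf ?_
  intro K _ _ τ hK hτ hKa hdeg hS
  rcases hcase with hres | ⟨h34, hj⟩
  · exact Pool.Agent.Helper44.QC.quad_ne_residue hK hτ hr hr2 hf hdeg hres hS
  -- `r` divides `p ^ f + 1`
  have hrd : r ∣ p ^ f + 1 := by
    obtain ⟨i, hi⟩ := h2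
    refine Pool.Agent.Helper44.QC.dvd_of_kill (j := j) hr hi ?_ ?_
    · linear_combination hj i
    · push_cast
      linear_combination 2 * hf i
  have hcardr : Fintype.card K % r = 1 := by
    have h1 : ((Fintype.card K : ℕ) : ZMod r) = ((1 : ℕ) : ZMod r) := by
      have h3 : ((p ^ f + 1 : ℕ) : ZMod r) = 0 := (ZMod.natCast_eq_zero_iff _ _).2 hrd
      push_cast at h3
      rw [hK, two_mul, pow_add]
      push_cast
      linear_combination ((p : ZMod r) ^ f - 1) * h3
    rw [ZMod.natCast_eq_natCast_iff, Nat.ModEq, Nat.mod_eq_of_lt hr.one_lt] at h1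
    exact h1
  have hro : Odd (r ^ j) := (hr.odd_of_ne_two hr2).pow
  have hdec : ∀ i, ∃ (b : ℕ) (χ' : MulChar K L), ch τ (a i) = eta K L ^ b * χ' ∧
      χ' ^ r ^ j = 1 ∧ (Odd b → ch τ (a i) ^ r ^ j = eta K L) := fun i =>
    decompose hro (ch_pow hτ (hKa i) (by push_cast; exact hj i))
  choose b χ' hb1 hb2 hb3 using hdec
  have : CharP K p := charP_of_card_eq_prime_pow hK
  exact Pool.Agent.Helper40.QC.quad_residue_three h34 hK hr2 (hb1 0) (hb1 1) (hb1 2) (hb1 3)
    (hb1 4) (hb2 0) (hb2 1) (hb2 2) (hb2 3) (hb2 4) hcardr hS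

/-- the case of an odd valuation -/
theorem case_place (H : QuadrilateralH2 p n L V) (hpn : p.Coprime n) {a : Fin 5 → ZMod n}
    (h2 : ∃ i, 2 * a i ≠ 0) (h : OddPlace p a) : H.W a ≤ ⨆ c, H.Fr.eigenspace c := by
  obtain ⟨m, hm0, ha, g, hodd⟩ := h
  refine part H hm0 h2 ha ?_
  intro hne hdeg x c hx hx'
  obtain ⟨K, _, _, hfin⟩ := exists_field (ZMod p) hm0
  have : Module.Finite (ZMod p) K := Module.finite_of_finrank_pos (by rw [hfin]; exact hm0)
  have : Finite K := Module.finite_of_finite (ZMod p)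
  have := Fintype.ofFinite K
  have hK : Fintype.card K = p ^ m := by
    rw [Module.card_eq_pow_finrank (K := ZMod p), hfin, ZMod.card]
  obtain ⟨τ, hτ, hc, h1, h2'⟩ := dual_traces H ha hne hdeg hx hx' K hK
  obtain ⟨ψ, hψ⟩ := exists_addChar L K
  have hKa : ∀ i, ((Fintype.card K - 1 : ℕ) : ZMod n) * a i = 0 := by
    intro i
    rw [hK]
    exact kill (ha i)
  -- the characters are not trivial
  have hKadd : ∀ {b c : ZMod n}, ((Fintype.card K - 1 : ℕ) : ZMod n) * b = 0 →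
      ((Fintype.card K - 1 : ℕ) : ZMod n) * c = 0 →
        ((Fintype.card K - 1 : ℕ) : ZMod n) * (b + c) = 0 := by
    intro b c hb hc
    rw [mul_add, hb, hc, add_zero]
  have d5 : a 0 + a 1 + a 4 ≠ 0 := neg_ne_zero.1 (hdeg 5)
  have d6 : a 2 + a 3 + a 4 ≠ 0 := neg_ne_zero.1 (hdeg 6)
  have d7 : a 0 + a 2 + a 4 ≠ 0 := hdeg 7
  have d8 : a 1 + a 3 + a 4 ≠ 0 := hdeg 8
  have d9 : a 0 + a 1 + a 2 + a 3 + a 4 ≠ 0 := neg_ne_zero.1 (hdeg 9)
  have three : ∀ {b c d : ZMod n}, ((Fintype.card K - 1 : ℕ) : ZMod n) * b = 0 →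
      ((Fintype.card K - 1 : ℕ) : ZMod n) * c = 0 →
      ((Fintype.card K - 1 : ℕ) : ZMod n) * d = 0 → b + c + d ≠ 0 →
        ch τ b * ch τ c * ch τ d ≠ 1 := by
    intro b c d hb hc hd h0
    rw [← ch_add hτ hb hc, ← ch_add hτ (hKadd hb hc) hd]
    exact ch_ne_one hτ (hKadd (hKadd hb hc) hd) h0
  have five : ch τ (a 0) * ch τ (a 1) * ch τ (a 2) * ch τ (a 3) * ch τ (a 4) ≠ 1 := by
    rw [← ch_add hτ (hKa 0) (hKa 1), ← ch_add hτ (hKadd (hKa 0) (hKa 1)) (hKa 2),
      ← ch_add hτ (hKadd (hKadd (hKa 0) (hKa 1)) (hKa 2)) (hKa 3),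
      ← ch_add hτ (hKadd (hKadd (hKadd (hKa 0) (hKa 1)) (hKa 2)) (hKa 3)) (hKa 4)]
    exact ch_ne_one hτ (hKadd (hKadd (hKadd (hKadd (hKa 0) (hKa 1)) (hKa 2)) (hKa 3)) (hKa 4)) d9
  have hfe := Pool.Agent.Helper40.QC.functional_equation' (ch_ne_one hτ (hKa 0) (hdeg 0))
    (ch_ne_one hτ (hKa 1) (hdeg 1)) (ch_ne_one hτ (hKa 2) (hdeg 2)) (ch_ne_one hτ (hKa 3) (hdeg 3))
    (ch_ne_one hτ (hKa 4) (hdeg 4)) (three (hKa 0) (hKa 1) (hKa 4) d5)
    (three (hKa 2) (hKa 3) (hKa 4) d6) (three (hKa 0) (hKa 2) (hKa 4) d7)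
    (three (hKa 1) (hKa 3) (hKa 4) d8) five hψ
  rw [h1, h2'] at hfe
  have hsq := sq_ne_orbit hpn hm0 hK hτ hψ a ha g hodd
  apply hsq
  rw [h1]
  set T := ten (ch τ (a 0)) (ch τ (a 1)) (ch τ (a 2)) (ch τ (a 3)) (ch τ (a 4)) ψ
  have h3 : T * (2 * c) * (2 * c) = (Fintype.card K : L) ^ 5 *
      (2 * ((Fintype.card K : L) ^ 2 / c)) * (2 * c) := by rw [hfe]
  calc T * (2 * c) ^ 2 = T * (2 * c) * (2 * c) := by ring
    _ = (Fintype.card K : L) ^ 5 * (2 * ((Fintype.card K : L) ^ 2 / c)) * (2 * c) := h3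
    _ = 4 * (Fintype.card K : L) ^ 7 := by
      field_simp
      ring

theorem case_nonResidue (H : QuadrilateralH2 p n L V) (hpn : p.Coprime n) {a : Fin 5 → ZMod n}
    (h2 : ∃ i, 2 * a i ≠ 0) (h : NonResidue a) : H.W a ≤ ⨆ c, H.Fr.eigenspace c := by
  rcases of_dual (nonResidue_imp hpn (NeZero.ne n) h) with h4 | h4
  · exact case_self H h2 h4
  · exact case_place H hpn h2 h4

open Pool.Agent.Helper40.QC in
theorem disc_eq {R : Type} [CommRing R] (v : Fin 5 → R) : disc v =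
    Pool.Agent.Helper79.KM.kD (v 0) (v 1) (v 2) (v 3) (v 4) := by
  simp only [disc, Fin.sum_univ_succ, Fin.sum_univ_zero, Pool.Agent.Helper79.KM.kD,
    Pool.Agent.Helper79.KM.sG, Pool.Agent.Helper79.KM.sS, Pool.Agent.Helper79.KM.sV]
  simp [Pool.Agent.Helper73.QC.residues]
  ring

/-- a part on which the product of the traces on it and its dual is not `4 q ^ 2` -/
theorem case_product (H : QuadrilateralH2 p n L V) {a : Fin 5 → ZMod n}
    (h2 : ∃ i, 2 * a i ≠ 0) (hdeg : ∀ i, residues a i ≠ 0) {m : ℕ} {K : Type} [Field K]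
    [Fintype K] (hK : Fintype.card K = p ^ m) (ha : ∀ i, (p : ZMod n) ^ m * a i = a i)
    (h : ∀ τ : MulChar K L, orderOf τ = Fintype.card K - 1 →
      quad (ch τ (a 0)) (ch τ (a 1)) (ch τ (a 2)) (ch τ (a 3)) (ch τ (a 4)) *
        quad (ch τ (a 0))⁻¹ (ch τ (a 1))⁻¹ (ch τ (a 2))⁻¹ (ch τ (a 3))⁻¹ (ch τ (a 4))⁻¹ ≠
          4 * (Fintype.card K : L) ^ 2) : H.W a ≤ ⨆ c, H.Fr.eigenspace c := by
  have hm0 : 0 < m := by
    rcases m.eq_zero_or_pos with h0 | h0
    · rw [h0, pow_zero] at hK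
      have := Fintype.one_lt_card (α := K)
      omega
    · exact h0
  refine part H hm0 h2 ha ?_
  intro hne _ x e hx hx'
  obtain ⟨τ, hτ, he, h3, h4⟩ := dual_traces H ha hne hdeg hx hx' K hK
  refine h τ hτ ?_
  rw [h3, h4]
  field_simp
  norm_num

end

section

variable {p r : ℕ} [hp : Fact p.Prime] [hr : Fact r.Prime] {L V : Type} [Field L]
    [AddCommGroup V] [Module L V] [CharZero L] [IsAlgClosed L] [FiniteDimensional L V]

/-- `r` divides `p ^ j + 1` -/
theorem case_dvd (H : QuadrilateralH2 p r L V) {a : Fin 5 → ZMod r} (h2 : ∃ i, 2 * a i ≠ 0)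
    {j : ℕ} (hj : r ∣ p ^ j + 1) : H.W a ≤ ⨆ c, H.Fr.eigenspace c := by
  have : NeZero r := ⟨hr.out.ne_zero⟩
  have hr2 : r ≠ 2 := by
    rintro rfl
    obtain ⟨i, hi⟩ := h2
    apply hi
    have h3 : (2 : ZMod 2) = 0 := rfl
    rw [h3, zero_mul]
  refine case_self H h2 ⟨j, r, 1, hr.out, hr2, fun i => ?_, Or.inl ⟨0, ?_⟩⟩
  · have h3 : ((p ^ j + 1 : ℕ) : ZMod r) = 0 := (ZMod.natCast_eq_zero_iff _ _).2 hj
    push_cast at h3
    linear_combination a i * h3
  · rw [pow_one, ZMod.natCast_self, zero_mul]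

/-- the Kummer condition -/
theorem case_kummer (H : QuadrilateralH2 p r L V) (hpr : p.Coprime r) (h4 : r % 4 = 3)
    (h3 : r ≠ 3) (h : Kummer p r) {a : Fin 5 → ZMod r} (h2 : ∃ i, 2 * a i ≠ 0)
    (hdeg : ∀ i, residues a i ≠ 0) : H.W a ≤ ⨆ c, H.Fr.eigenspace c := by
  have : NeZero r := ⟨hr.out.ne_zero⟩
  obtain ⟨m, K, iK, iF, ind, hK, hd, hadd, hB⟩ := h
  have hr5 : 5 < r := by
    by_contra hcon
    have : r ≤ 5 := by omega
    interval_cases r <;> omega
  -- integers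
  let v : Fin 5 → ℤ := fun i => ((a i).val : ℤ)
  have hv : ∀ i, ((v i : ℤ) : ZMod r) = a i := fun i => by
    simp [v]
  have hres : ∀ i, ((Pool.Agent.Helper73.QC.residues v i : ℤ) : ZMod r) = residues a i := by
    intro i
    fin_cases i <;> simp [Pool.Agent.Helper73.QC.residues, residues, hv]
  rcases Pool.Agent.Helper40.QC.int_disc_ne_zero_or h4 h3 (v := v) (fun i => by
    rw [hres]; exact hdeg i) with h5 | h5
  · refine case_product H h2 hdeg hK ?_ fun τ hτ =>
      Pool.Agent.Helper79.KM.kummer_seven (r := r) hr5 (c := 1) one_pos (by rw [pow_one, one_mul])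
        hr.out.ne_zero hτ (by rw [hK, pow_one]; exact hd) v ?_ (fun i => ?_) hdeg hadd hB
    · intro i
      have h6 : ((p ^ m - 1 : ℕ) : ZMod r) = 0 := (ZMod.natCast_eq_zero_iff _ _).2 hd
      rw [Nat.cast_sub (Nat.one_le_pow _ _ hp.out.pos)] at h6
      push_cast at h6
      linear_combination a i * h6
    · rwa [← disc_eq]
    · rw [Nat.cast_one, one_mul, hv]
  · refine case_nonResidue H hpr h2 ⟨r, 1, 1, v, hr.out, by omega, one_pos,
      by rw [pow_one, one_mul], fun i => ?_, h5⟩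
    rw [Nat.cast_one, one_mul, hv]

/-- the Kummer conditions of weight three and five -/
theorem case_eight (H : QuadrilateralH2 p r L V) (hpr : p.Coprime r) (h4 : r % 4 = 1)
    (h5 : r ≠ 5) (h1 : p % r = 1) (h : Kummer₂ p r)
    {a : Fin 5 → ZMod r} (h2 : ∃ i, 2 * a i ≠ 0) (hdeg : ∀ i, residues a i ≠ 0) :
    H.W a ≤ ⨆ c, H.Fr.eigenspace c := by
  have : NeZero r := ⟨hr.out.ne_zero⟩
  obtain ⟨m, K, iK, iF, ind, hK, hd, hadd, hB, hC⟩ := h
  have hr9 : 9 < r := by
    by_contra hcon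
    have h6 : r = 1 ∨ r = 9 := by omega
    rcases h6 with rfl | rfl
    · exact absurd hr.out (by norm_num)
    · exact absurd hr.out (by norm_num)
  have hp1 : ((p : ℕ) : ZMod r) = 1 := by
    have h7 := (ZMod.natCast_eq_natCast_iff p 1 r).2 (by
      rw [Nat.ModEq, h1, Nat.mod_eq_of_lt (by omega)])
    rwa [Nat.cast_one] at h7
  rcases Pool.Agent.Helper41.KW.classify_all (by omega) a hdeg with
    ⟨g, hg⟩ | ⟨s, t, hs, ht, hP⟩
  · refine case_place H hpr h2 ⟨1, one_pos, fun i => by rw [pow_one, hp1, one_mul], g, ?_⟩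
    rw [Finset.sum_range_one, pow_zero, mul_one]
    exact odd_one.add_even hg
  · refine case_product H h2 hdeg hK (fun i => ?_) fun τ hτ =>
      Pool.Agent.Helper79.KM.eight_ne hr9 hτ (by rw [hK]; exact hd) hs ht hP hadd hB hC
    rw [hp1, one_pow, one_mul]

end

/-- exponent three -/
theorem case_three {p : ℕ} [hp : Fact p.Prime] {L V : Type} [Field L]
    [AddCommGroup V] [Module L V] [CharZero L] [IsAlgClosed L] [FiniteDimensional L V]
    (H : QuadrilateralH2 p 3 L V) (hp3 : p ≠ 3) (hp9 : p % 9 ≠ 1) {a : Fin 5 → ZMod 3}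
    (h2 : ∃ i, 2 * a i ≠ 0) (hdeg : ∀ i, residues a i ≠ 0) :
    H.W a ≤ ⨆ c, H.Fr.eigenspace c := by
  have : Fact (Nat.Prime 3) := ⟨Nat.prime_three⟩
  have h0 : p % 3 ≠ 0 := fun h => hp3
    ((Nat.prime_dvd_prime_iff_eq Nat.prime_three hp.out).1 (Nat.dvd_of_mod_eq_zero h)).symm
  rcases (by omega : p % 3 = 1 ∨ p % 3 = 2) with h1 | h1
  · have hK : Fintype.card (ZMod p) = p ^ 1 := by rw [ZMod.card, pow_one]
    refine case_product H h2 hdeg hK (fun i => ?_) fun τ hτ =>
      Pool.Agent.Helper44.KM.three_ne (by rw [ZMod.card]; exact h1) (by rw [ZMod.card]; exact hp9)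
        hτ hdeg
    have h3 : ((p : ℕ) : ZMod 3) = 1 := by
      have := (ZMod.natCast_eq_natCast_iff p 1 3).2 h1
      rwa [Nat.cast_one] at this
    rw [pow_one, h3, one_mul]
  · exact case_dvd H h2 (j := 1) (by rw [pow_one]; omega)

/-- exponent five -/
theorem case_five {p : ℕ} [hp : Fact p.Prime] {L V : Type} [Field L]
    [AddCommGroup V] [Module L V] [CharZero L] [IsAlgClosed L] [FiniteDimensional L V]
    (H : QuadrilateralH2 p 5 L V) (hp5 : p ≠ 5) (hp25 : p % 25 ≠ 1) {a : Fin 5 → ZMod 5}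
    (h2 : ∃ i, 2 * a i ≠ 0) (hdeg : ∀ i, residues a i ≠ 0) :
    H.W a ≤ ⨆ c, H.Fr.eigenspace c := by
  have : Fact (Nat.Prime 5) := ⟨Nat.prime_five⟩
  have h0 : p % 5 ≠ 0 := fun h => hp5
    ((Nat.prime_dvd_prime_iff_eq Nat.prime_five hp.out).1 (Nat.dvd_of_mod_eq_zero h)).symm
  rcases (by omega : p % 5 = 1 ∨ p % 5 = 4 ∨ p % 5 = 2 ∨ p % 5 = 3) with h1 | h1 | h1
  · have h3 : ((p : ℕ) : ZMod 5) = 1 := by
      have := (ZMod.natCast_eq_natCast_iff p 1 5).2 h1
      rwa [Nat.cast_one] at this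
    rcases Pool.Agent.Helper40.KM.five a hdeg with ⟨g, hg⟩ | ⟨s, t, hs, ht, hP⟩
    · refine case_place H ((Nat.coprime_primes hp.out Nat.prime_five).2 hp5) h2
        ⟨1, one_pos, fun i => by rw [pow_one, h3, one_mul], g, ?_⟩
      rw [Finset.sum_range_one, pow_zero, mul_one]
      exact odd_one.add_even hg
    · have hK : Fintype.card (ZMod p) = p ^ 1 := by rw [ZMod.card, pow_one]
      refine case_product H h2 hdeg hK (fun i => ?_) fun τ hτ =>
        Pool.Agent.Helper40.KM.five_ne (by rw [ZMod.card]; exact h1)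
          (by rw [ZMod.card]; exact hp25) hτ hs ht hP
      rw [pow_one, h3, one_mul]
  · exact case_dvd H h2 (j := 1) (by rw [pow_one]; omega)
  · refine case_dvd H h2 (j := 2) ?_
    have h3 : p ^ 2 % 5 = 4 := by
      rw [Nat.pow_mod]
      rcases h1 with h | h <;> rw [h]
    omega

/-- the exponent is a power of an odd prime or twice such a power, and divides `p ^ j + 1` -/
theorem case_power {p n : ℕ} [hp : Fact p.Prime] (hn : n ≠ 0) {L V : Type} [Field L]
    [AddCommGroup V] [Module L V] [CharZero L] [IsAlgClosed L] [FiniteDimensional L V]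
    (H : QuadrilateralH2 p n L V) {r k j : ℕ} (hr : r.Prime) (hr2 : r ≠ 2)
    (hnr : n = r ^ k ∨ p % 4 = 3 ∧ n = 2 * r ^ k) (hj : n ∣ p ^ j + 1) {a : Fin 5 → ZMod n}
    (h2 : ∃ i, 2 * a i ≠ 0) : H.W a ≤ ⨆ c, H.Fr.eigenspace c := by
  have : NeZero n := ⟨hn⟩
  have h3 : ((p ^ j + 1 : ℕ) : ZMod n) = 0 := (ZMod.natCast_eq_zero_iff _ _).2 hj
  push_cast at h3
  refine case_self H h2 ⟨j, r, k, hr, hr2, fun i => by linear_combination a i * h3, ?_⟩
  rcases hnr with h | ⟨h4, h⟩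
  · refine Or.inl ⟨0, ?_⟩
    have h5 : ((r ^ k : ℕ) : ZMod n) = 0 := (ZMod.natCast_eq_zero_iff _ _).2 (by rw [h])
    push_cast at h5
    rw [h5, zero_mul]
  · refine Or.inr ⟨h4, fun i => ?_⟩
    have h5 : ((2 * r ^ k : ℕ) : ZMod n) = 0 := (ZMod.natCast_eq_zero_iff _ _).2 (by rw [h])
    push_cast at h5
    rw [h5, zero_mul]

/-- **Main theorem.** -/
theorem result (p n : ℕ) [hp : Fact p.Prime] (hn : n ≠ 0) (hpn : p.Coprime n)
    {L V : Type} [Field L] [CharZero L] [IsAlgClosed L] [AddCommGroup V] [Module L V]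
    [FiniteDimensional L V] (H : QuadrilateralH2 p n L V)
    (h : (∃ r k j, r.Prime ∧ r ≠ 2 ∧ (n = r ^ k ∨ p % 4 = 3 ∧ n = 2 * r ^ k) ∧ n ∣ p ^ j + 1) ∨
      (n.Prime ∧ n % 4 = 3 ∧ n ≠ 3 ∧ Kummer p n) ∨ (n = 3 ∧ p % 9 ≠ 1) ∨ (n = 5 ∧ p % 25 ≠ 1) ∨
      (n.Prime ∧ n % 4 = 1 ∧ n ≠ 5 ∧ p % n = 1 ∧ Kummer₂ p n) ∨
      ∀ a, H.W a ≠ ⊥ → (∃ i, 2 * a i ≠ 0) → (∀ i, residues a i ≠ 0) →
        SelfDual p a ∨ NonResidue a) :
    H.Fr.IsSemisimple := by
  have : NeZero n := ⟨hn⟩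
  apply semisimple_of_iSup
  rw [eq_top_iff, ← H.span]
  refine sup_le (le_of_semisimple H.N_stable H.N_semisimple) (iSup_le fun a => ?_)
  by_cases h2 : ∃ i, 2 * a i ≠ 0
  swap
  · push Not at h2
    exact case_two H hp.out hpn h2
  by_cases hW : H.W a = ⊥
  · rw [hW]
    exact bot_le
  by_cases hdeg : ∀ i, residues a i ≠ 0
  swap
  · -- the dimension is at most one
    let P : (ZMod n)ˣ := ZMod.unitOfCoprime p hpn
    have hP : (p : ZMod n) ^ orderOf P = 1 := by
      have h4 := congrArg Units.val (pow_orderOf_eq_one P)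
      rwa [Units.val_pow_eq_pow_val, ZMod.coe_unitOfCoprime, Units.val_one] at h4
    refine part H (orderOf_pos P) h2 (fun i => by rw [hP, one_mul]) ?_
    intro _ hdeg'
    exact absurd hdeg' hdeg
  rcases h with ⟨r, k, j, hr, hr2, hnr, hj⟩ | ⟨hr, h4, h3, hk⟩ | ⟨h3, h9⟩ | ⟨h5, h25⟩ |
    ⟨hr, h4, h5, h1, hk⟩ | h
  · exact case_power hn H hr hr2 hnr hj h2
  · have : Fact n.Prime := ⟨hr⟩
    exact case_kummer H hpn h4 h3 hk h2 hdeg
  · subst h3
    exact case_three H ((Nat.coprime_primes hp.out Nat.prime_three).1 hpn) h9 h2 hdeg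
  · subst h5
    exact case_five H ((Nat.coprime_primes hp.out Nat.prime_five).1 hpn) h25 h2 hdeg
  · have : Fact n.Prime := ⟨hr⟩
    exact case_eight H hpn h4 h5 h1 hk h2 hdeg
  · rcases h a hW h2 hdeg with ⟨f, r, j, hr, hr2, hf, hi⟩ | h3
    · exact case_self H h2 ⟨f, r, j, hr, hr2, hf, Or.inl hi⟩
    · exact case_nonResidue H hpn h2 h3

/-! ### All the covers of an exponent -/

section

variable {p : ℕ} [hp : Fact p.Prime] {L V : Type} [Field L] [CharZero L] [IsAlgClosed L]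
  [AddCommGroup V] [Module L V] [FiniteDimensional L V]

omit hp in
theorem coprime_of_dvd {r j : ℕ} (hr : r.Prime) (hr2 : r ≠ 2) (hj : r ∣ p ^ j + 1) :
    p.Coprime r := by
  rw [Nat.coprime_comm, Nat.Prime.coprime_iff_not_dvd hr]
  intro h
  rcases Nat.eq_zero_or_pos j with h0 | h0
  · rw [h0, pow_zero] at hj
    have := Nat.le_of_dvd (by norm_num) hj
    have := hr.two_le
    omega
  · have h1 : r ∣ p ^ j := h.trans (dvd_pow_self p h0.ne')
    have h2 := (Nat.dvd_add_right h1).1 hj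
    exact hr.one_lt.ne' (Nat.dvd_one.1 h2)

omit hp in
theorem dvd_pow_add_one {r j : ℕ} (hr : r.Prime) (hr2 : r ≠ 2) (hj : r ∣ p ^ j + 1) (k : ℕ) :
    r ^ k ∣ p ^ (j * r ^ k) + 1 := by
  have h1 : ((r : ℕ) : ℤ) ∣ (p : ℤ) ^ j - (-1) := by
    have := Int.natCast_dvd_natCast.2 hj
    push_cast at this
    rwa [sub_neg_eq_add]
  have h2 := dvd_sub_pow_of_dvd_sub h1 k
  have h3 : ((-1 : ℤ)) ^ r ^ k = -1 := ((hr.odd_of_ne_two hr2).pow).neg_one_pow
  rw [h3, ← pow_mul, sub_neg_eq_add] at h2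
  have h4 : ((r ^ k : ℕ) : ℤ) ∣ ((p ^ (j * r ^ k) + 1 : ℕ) : ℤ) := by
    push_cast
    exact (pow_dvd_pow (r : ℤ) (Nat.le_succ k)).trans h2
  exact Int.natCast_dvd_natCast.1 h4

/-- **Prime powers.** The exponent is a power of an odd prime `r` which divides `p ^ j + 1`. -/
theorem prime_power {r : ℕ} (hr : r.Prime) (hr2 : r ≠ 2) {j : ℕ} (hj : r ∣ p ^ j + 1) (k : ℕ)
    (H : QuadrilateralH2 p (r ^ k) L V) : H.Fr.IsSemisimple :=
  result p (r ^ k) (pow_ne_zero _ hr.ne_zero) ((coprime_of_dvd hr hr2 hj).pow_right k) H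
    (Or.inl ⟨r, k, j * r ^ k, hr, hr2, Or.inl rfl, dvd_pow_add_one hr hr2 hj k⟩)

/-- **Twice a prime power.** The exponent is twice a power of an odd prime `r` which divides
`p ^ j + 1`, and `p` is three modulo four. -/
theorem two_prime_power (hp4 : p % 4 = 3) {r : ℕ} (hr : r.Prime) (hr2 : r ≠ 2) {j : ℕ}
    (hj : r ∣ p ^ j + 1) (k : ℕ) (H : QuadrilateralH2 p (2 * r ^ k) L V) :
    H.Fr.IsSemisimple := by
  have hp2 : p.Coprime 2 := (Nat.coprime_primes hp.out Nat.prime_two).2 (by rintro rfl; omega)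
  refine result p (2 * r ^ k) (mul_ne_zero two_ne_zero (pow_ne_zero _ hr.ne_zero))
    (hp2.mul_right ((coprime_of_dvd hr hr2 hj).pow_right k)) H
    (Or.inl ⟨r, k, j * r ^ k, hr, hr2, Or.inr ⟨hp4, rfl⟩, ?_⟩)
  refine Nat.Coprime.mul_dvd_of_dvd_of_dvd ?_ ?_ (dvd_pow_add_one hr hr2 hj k)
  · exact ((Nat.coprime_primes Nat.prime_two hr).2 hr2.symm).pow_right k
  · have h2 : Odd (p ^ (j * r ^ k)) := Odd.pow (Nat.odd_iff.2 (by omega))
    exact even_iff_two_dvd.1 (h2.add_one)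

end

end Pool.Agent.Results.MP_1fe969_ag.PrimeExponents
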