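import Pool.Agent.Helper48.V10.Ell
import Pool.Agent.Helper48.V9.Weighted
import Pool.Agent.Helper73.SS.CoverEx
import Pool.Agent.Helper73.SS.Pow

/-!
# The generalized Tate conjecture for products of two surfaces

Let `Ω` be an algebraic closure of the field with `p` elements, and let `K`, `K'` be function fields
of surfaces over `Ω` with the following property (`IsCover`): `K` is a finite abelian extension of a
field `R`, and every field `M` between `R` and `K` with a cyclic group `Gal(M / R)` is uniruled or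
satisfies one of the following three conditions.

* `IsTwist`: `M = B(w)`, `w ^ n ∈ B`, `n = [M : B]`, for the function field `B` of some surface,
  `R ⊆ B ⊆ M` (for example `B = R`), `n` divides `p ^ k + 1` for some `k`, and for some `a`, `b` the
  threefold `v ^ a * (1 - v) ^ b = (s * w) ^ n` over `B` is uniruled, where `n` and `gcd(a, b)` are
  relatively prime and `a`, `b`, `a + b` are not multiples of `n`. Examples for all `n`:
  `F(x, y, w ^ n) = 0`, where the degree of `F` for some weights `a`, `b`, `2 * c` of the variables is at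
  most `a + b + c` (`pullback` below); `w ^ n = f ^ s * h ^ t / g ^ (s + t)`, where `s`, `t` are coprime
  and the degree of `f - r ^ t * g + r ^ (s + t) * h` is at most `a + b + c` for some weights `a, b, c`
  of `x, y, r` (`Helper9/TR`); `w ^ n = f(x, y)`, if for some weights `a`, `b` of `x`, `y` and all `k`
  prime to `n`, `k * deg f ≤ n * (a + b)` or `(n - k) * deg f ≤ n * (a + b)`
  (`Helper73/V7/Power.lean`).
* `IsCurve`: `M = Ω(x, y, w)`, `R ⊆ Ω(x, y)`, `n = [M : Ω(x, y)]` divides `p ^ k + 1` for some `k`,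
  `w ^ n = f₁(x, y) ^ e₁ * ⋯ * fᵣ(x, y) ^ eᵣ`, branched along a curve in the plane, or in the weighted
  plane `P(a, b, 1)`, with components of the degrees `dᵢ`. Either `n ≤ 10` for the plane, `n ≤ 6` for
  the weighted planes, and for each `k` (with `2 * k ≠ n` if `n ≠ 2`) the sum `∑ dᵢ * {k * eᵢ / n}` or
  the sum `∑ dᵢ * {-k * eᵢ / n}` of the fractional parts is at most `a + b`. This is the condition
  `h ^ {2, 0} * h ^ {0, 2} = 0` for the part of `H ^ 2` which belongs to the character `k` of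
  `Gal(M / Ω(x, y))`, if the curve has only nodes; no other condition on the curve is imposed. It
  holds if the degree of the plane curve is at most five. Or `n` is arbitrary, there are at most three
  components in the plane, and the degree is at most four, or is five and there is at most one line.
* `IsWild`: `M = B(w)`, `w ^ p - w ∈ B`, `p = [M : B]`, for the function field `B` of some surface,
  `R ⊆ B ⊆ M`, and the threefold `d ^ p - d = s ^ 2 - (w ^ p - w)` over `B` (`s ^ 3` in place of `s ^ 2`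
  for `p = 2`) is uniruled.

Examples of `IsCover`:

* `elliptic_power` below: all elliptic surfaces `y ^ 2 = x ^ 3 + A(w ^ n) * x + B(w ^ n)`, `deg A ≤ 2`,
  `deg B ≤ 3`, more generally `y ^ 2 + a₁ * x * y + a₃ * y = x ^ 3 + a₂ * x ^ 2 + a₄ * x + a₆`, where `aᵢ`
  is a polynomial in `w ^ n` of degree at most `i / 2`, for every `n` which divides a number `p ^ k + 1`
  (`w ^ n = v * (1 - v) / s ^ n` makes the threefold a family of rational elliptic surfaces);
* `elliptic_additive` below: all elliptic surfaces `y ^ 2 + a₁ * x * y + a₃ * y = x ^ 3 + a₂ * x ^ 2 +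
  a₄ * x + a₆`, where `aᵢ` is a polynomial in `L(w)` of degree at most `i * (P + 2) / (2 * P)`,
  `P = max p 3`, for every separable additive polynomial `L(w) = l₀ * w + l₁ * w ^ p + ⋯ +
  l_e * w ^ p ^ e`, for example for `L(w) = w ^ q - w`, `q` any power of `p`. The bound is `5 * i / 6`
  for `p = 2` and `p = 3` (so `deg a₄ ≤ 3` and `deg a₆ ≤ 5`), `7 * i / 10` for `p = 5` (`deg a₄ ≤ 2` and
  `deg a₆ ≤ 4`), and at least `i / 2` for all `p` (`deg a₄ ≤ 2` and `deg a₆ ≤ 3`). There is no condition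
  on `p` and `L`, and the geometric genus is unbounded. (Inseparable `L` follow: the surface for
  `L₁(w ^ (p ^ j))`, `L₁` separable, is dominated by the surface for the separable polynomial with the
  `p ^ j`-th roots of all coefficients of `L₁` and the `aᵢ`, whose `x`, `y` are the `p ^ j`-th roots of
  the given ones.) Here `R = Ω(x, y, L(w))`, and the fields `M ≠ R` are `R(w')`,
  `w' ^ p - w' = c * L(w)`, `c ∈ Ω`; by `w' ^ p - w' = s ^ 2 - (d ^ p - d)` (`s ^ 3` if `p = 2`) the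
  threefold is a double cover of a weighted projective space with a negative canonical class;
* `double_additive` below: the double planes `y ^ 2 = G(x, L(w)) * y + F(x, L(w))`, where for some
  weights `a`, `b` of `x`, `L(w)` and some `g`, `h` with `p * g ≤ b`, `2 * h ≤ b` (`3 * h ≤ b` if `p = 2`)
  the degree of `F` is at most `2 * (a + g + h)` and the degree of `G` is at most `a + g + h`;
* `power` and `additive` below: `F(x, y, w ^ n) = 0` and `F(x, y, L(w)) = 0`, where the degree of `F`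
  for some weights `a`, `b`, `2 * c` of the variables is at most `a + b + c`;
* `plane` below: `K` is generated by `x`, `y` and the roots of the equations
  `w_i ^ p - w_i = f_i(x, y) / g(x, y) ^ 2`, and for some weights `a, b ≥ 0` of `x, y`, not both zero,
  and `P = max p 3`, `deg g ≤ a + b` and `(P - 2) * deg f_i + 4 * deg g ≤ 2 * P * (a + b)`; or `K` is
  generated by `x`, `y` and a root of `L(w) = f(x, y) / g(x, y) ^ 2` (`plane_additive`). For `g = 1` and
  the ordinary degree the condition is `deg f_i ≤ 12` if `p ≤ 3`, `deg f_i ≤ 6` if `p = 5`,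
  `deg f_i ≤ 5` if `p = 7`, and `deg f_i ≤ 4` if `p > 7`;
* `w ^ 3 = f(x, y)` for arbitrary polynomials `f` of degree at most six, or of weighted
  degree at most `3 * (a + b)`, if `p` is `2` modulo `3`; all abelian covers of the plane of exponent
  `n ≤ 10` along arbitrary curves of degree at most five, if `p` is `-1` modulo `n`; composites of such
  covers.

Let `X`, `X'` be surfaces over a finite field which are dominated over `Ω` by the surfaces with the
function fields `K`, `K'`, and let `T`, `T'` be the second cohomology of `X`, `X'` modulo the classes of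
divisors. Then `T ⊗ T'` is supported on divisors of `X × X'`, and the classes in `T ⊗ T'` which
generate a representation of weight four whose eigenvalues are `q ^ 2` times roots of unity are
algebraic. (If `H¹(X) = H¹(X') = 0`, this is the part of the generalized Tate conjecture for `X × X'`
which is not contained in the Tate conjecture for divisors on `X` and `X'`, by hard Lefschetz.)

The cohomology `H 2 K` is the sum of the eigenspaces of the Galois group. Let `C` be the curve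
`u ^ n = v ^ α * (1 - v) ^ β` (in the case of `IsWild` `u ^ p - u = s ^ 2`, or `s ^ 3` if `p = 2`). It is
supersingular. For an eigenspace `E` of `H 2 K` and the eigenspace `E'` of `H 1 C` for the inverse
character, `E ⊗ E'` comes from a threefold which is uniruled, and so from the first cohomology of a
variety `D`. As Frobenius is a scalar on `H 1 C`, the space `E` itself is, up to the twist by this
scalar, a subspace of `H 1 D`. The tensor product of two such spaces is a subspace of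
`H 1 D ⊗ H 1 D'(-1)`, given by a correspondence between `D × D'` and `X × X'`: the twists by `C` and
`C'` are cancelled by a divisor on `C × C'`, which exists by the theorem of Tate.
-/

set_option autoImplicit false

namespace Pool.Agent.Results.MP_8abef2_ag.SupersingularTwists

open IntermediateField MvPolynomial Pool.Agent.Helper73.SS

open Pool.Agent.Helper15.GD (Ext)

/-- The equation `w ^ n = f₁(x, y) ^ e₁ * ⋯ * fᵣ(x, y) ^ eᵣ`, `n = [M : Ω(x, y)]`, `M = Ω(x, y, w)`,
`R ⊆ Ω(x, y)`, `n ∣ p ^ j + 1`, for a curve with the equation `F₁ * ⋯ * Fᵣ = 0` in the weighted plane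
`P(a, b, 1)`, where `Fᵢ(x, y, 1) = fᵢ` and `dᵢ = deg Fᵢ`. Either `n ≤ 6`, or `n ≤ 10` and `a = b = 1`,
the curve is arbitrary, and `h ^ {2, 0} * h ^ {0, 2} = 0` for all the characters of order different
from one and two (and for the character of order two if `n = 2`), if the curve has only nodes: the
Hodge number `h ^ {2, 0}` of the character `k` or `-k` is zero if `∑ dᵢ * (k * eᵢ % n) ≤ n * (a + b)`
(if and only if, for `a = b = 1`). Or `a = b = 1`, there are at most three components and the degree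
is at most four, or five and at most one `Fᵢ` is linear. -/
def IsCurve (p : ℕ) (Ω R M : Type) [Field Ω] [Field R] [Field M] [Algebra Ω M] [Algebra R M] :
    Prop :=
  ∃ (n j a b r : ℕ) (d e : Fin r → ℕ) (f : Fin r → MvPolynomial (Fin 2) Ω) (x y w : M),
    n ∣ p ^ j + 1 ∧
    (∀ r : R, algebraMap R M r ∈ adjoin Ω {x, y}) ∧ adjoin Ω {x, y, w} = ⊤ ∧
    Module.finrank (adjoin Ω {x, y}) M = n ∧
    (∀ i, ∀ m ∈ (f i).support, a * m 0 + b * m 1 ≤ d i) ∧ n ∣ ∑ i, d i * e i ∧
    ((0 < a + b ∧ n ≤ 6 ∨ a = 1 ∧ b = 1 ∧ n ≤ 10) ∧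
        (∀ k < n, 2 * k ≠ n ∨ n = 2 → ∑ i, d i * (k * e i % n) ≤ n * (a + b) ∨
          ∑ i, d i * ((n - k) * e i % n) ≤ n * (a + b)) ∨
      a = 1 ∧ b = 1 ∧ r ≤ 3 ∧
        (∑ i, d i ≤ 4 ∨ ∑ i, d i = 5 ∧ (Finset.univ.filter fun i => d i = 1).card ≤ 1)) ∧
    w ^ n = ∏ i, aeval ![x, y] (f i) ^ e i

/-- `M = B(w)`, `w ^ n ∈ B`, `n = [M : B]`, where `B = Ω(x, y, z)` is the function field of a surface
and contains `R`, `n ∣ p ^ j + 1`, and the threefold `v ^ a * (1 - v) ^ b = (s * w) ^ n` over `B` is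
uniruled. -/
def IsTwist (p : ℕ) (Ω R M : Type) [Field Ω] [Field R] [Field M] [Algebra Ω M] [Algebra R M] :
    Prop :=
  ∃ (n j a b : ℕ) (x y z w : M), n ∣ p ^ j + 1 ∧ IsAlgebraic (adjoin Ω {x, y}) z ∧
    (∀ r : R, algebraMap R M r ∈ adjoin Ω {x, y, z}) ∧ adjoin Ω {x, y, z, w} = ⊤ ∧
    Module.finrank (adjoin Ω {x, y, z}) M = n ∧ w ^ n ∈ adjoin Ω {x, y, z} ∧
    (a.gcd b).Coprime n ∧ ¬ n ∣ a ∧ ¬ n ∣ b ∧ ¬ n ∣ a + b ∧
    ∀ (N : Type) [Field N] [Algebra Ω N] (g : M →ₐ[Ω] N) (v s : N),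
      Transcendental g.fieldRange v → v ^ a * (1 - v) ^ b = (s * g w) ^ n →
      Pool.Agent.Helper75.QC.Uniruled Ω (adjoin Ω {g x, g y, g z, v, s} : IntermediateField Ω N) 3

/-- `M = B(w)`, `w ^ p - w ∈ B`, `p = [M : B]`, where `B = Ω(x, y, z)` is the function field of a
surface and contains `R`, and the threefold `d ^ p - d = s ^ m - (w ^ p - w)` over `B` is uniruled,
`m = 2` (`m = 3` if `p = 2`). -/
def IsWild (p : ℕ) (Ω R M : Type) [Field Ω] [Field R] [Field M] [Algebra Ω M] [Algebra R M] :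
    Prop :=
  ∃ x y z w : M, IsAlgebraic (adjoin Ω {x, y}) z ∧
    (∀ r : R, algebraMap R M r ∈ adjoin Ω {x, y, z}) ∧ adjoin Ω {x, y, z, w} = ⊤ ∧
    Module.finrank (adjoin Ω {x, y, z}) M = p ∧ w ^ p - w ∈ adjoin Ω {x, y, z} ∧
    ∀ (N : Type) [Field N] [Algebra Ω N] (g : M →ₐ[Ω] N) (d s : N),
      Transcendental g.fieldRange s →
      d ^ p - d = s ^ (if p = 2 then 3 else 2) - g (w ^ p - w) →
      Pool.Agent.Helper75.QC.Uniruled Ω (adjoin Ω {g x, g y, g z, d, s} : IntermediateField Ω N) 3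

/-- `K` is a finite abelian extension of `R`, and the surfaces with the function fields `M`, where
`M / R` is a cyclic subextension, are uniruled or given by the equations above. -/
def IsCover (p : ℕ) (Ω K : Type) [Field Ω] [Field K] [Algebra Ω K] : Prop :=
  ∃ R : IntermediateField Ω K, FiniteDimensional R K ∧ IsGalois R K ∧
    (∀ g h : K ≃ₐ[R] K, g * h = h * g) ∧
    ∀ M : IntermediateField R K, IsCyclic (M ≃ₐ[R] M) →
      Pool.Agent.Helper75.QC.Uniruled Ω M 2 ∨ IsTwist p Ω R M ∨ IsCurve p Ω R M ∨ IsWild p Ω R M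

section Examples

theorem isWild_of_row {p : ℕ} {Ω R M : Type} [Field Ω] [Field R] [Field M] [Algebra Ω M]
    [Algebra R M] (h : Pool.Agent.Helper73.WT.RowW p Ω R M) : IsWild p Ω R M := h

/-- the twists over a field `B` between `R` and `M` -/
theorem isTwist_of_row {p : ℕ} {Ω R M : Type} [Field Ω] [Field R] [Field M] [Algebra Ω M]
    [Algebra R M] (B : IntermediateField Ω M) (hB : ∀ r : R, algebraMap R M r ∈ B) {n j : ℕ}
    (hn : Module.finrank B M = n) (hj : n ∣ p ^ j + 1)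
    (h : Pool.Agent.Helper35.V7.Row3 Ω B M) : IsTwist p Ω R M := by
  obtain ⟨n', a, b, x, y, z, w, hz, h1, h2, h3, h4, h5, h6, h7, h8, h9⟩ :=
    Pool.Agent.Helper73.V7.IsTwist.of_row3 h
  refine ⟨n', j, a, b, x, y, z, w, ?_, hz, fun r => h1 ⟨_, hB r⟩, h2, h3, h4, h5, h6, h7, h8, h9⟩
  refine Dvd.dvd.trans ?_ hj
  let i : B →+* (adjoin Ω {x, y, z} : IntermediateField Ω M) := (algebraMap B M).codRestrict _ h1
  let _ : Algebra B (adjoin Ω {x, y, z} : IntermediateField Ω M) := i.toAlgebra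
  have : IsScalarTower B (adjoin Ω {x, y, z} : IntermediateField Ω M) M :=
    IsScalarTower.of_algebraMap_eq fun _ => rfl
  rw [← h3, ← hn]
  exact ⟨_, by
    rw [mul_comm]
    exact (Module.finrank_mul_finrank B (adjoin Ω {x, y, z} : IntermediateField Ω M) M).symm⟩

/-- Examples of `IsTwist` for all `n ∣ p ^ j + 1`: `M = Ω(x, y, w)`, `n = [M : Ω(x, y, w ^ n)]`,
`R ⊆ Ω(x, y, w ^ n)`, and `F(x, y, w ^ n) = 0` for a polynomial `F ≠ 0` of degree at most `a + b + c`
for some weights `a, b, 2 * c` of its variables. (For `n ≤ 2` the field `M` is uniruled.) -/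
theorem pullback {p : ℕ} {Ω R M : Type} [Field Ω] [IsAlgClosed Ω] [Field R] [Field M]
    [Algebra Ω R] [Algebra Ω M] [Algebra R M] [IsScalarTower Ω R M] [FiniteDimensional R M]
    [IsGalois R M] (n j a b c : ℕ) (hj : n ∣ p ^ j + 1) (F : MvPolynomial (Fin 3) Ω) (x y w : M)
    (hR : ∀ r : R, algebraMap R M r ∈ adjoin Ω {x, y, w ^ n}) (hM : adjoin Ω {x, y, w} = ⊤)
    (hn : Module.finrank (adjoin Ω {x, y, w ^ n}) M = n) (habc : 0 < a + b + c) (hF : F ≠ 0)
    (hd : ∀ m ∈ F.support, a * m 0 + b * m 1 + 2 * c * m 2 ≤ a + b + c)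
    (h0 : aeval ![x, y, w ^ n] F = 0) :
    Pool.Agent.Helper75.QC.Uniruled Ω M 2 ∨ IsTwist p Ω R M := by
  let i : R →+* (adjoin Ω {x, y, w ^ n} : IntermediateField Ω M) :=
    (algebraMap R M).codRestrict _ hR
  let _ : Algebra R (adjoin Ω {x, y, w ^ n} : IntermediateField Ω M) := i.toAlgebra
  have : IsScalarTower R (adjoin Ω {x, y, w ^ n} : IntermediateField Ω M) M :=
    IsScalarTower.of_algebraMap_eq fun _ => rfl
  have : FiniteDimensional (adjoin Ω {x, y, w ^ n} : IntermediateField Ω M) M :=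
    FiniteDimensional.right R _ M
  have : IsGalois (adjoin Ω {x, y, w ^ n} : IntermediateField Ω M) M :=
    IsGalois.tower_top_of_isGalois R _ M
  exact (Pool.Agent.Helper73.V7.IsPullback.row
    ⟨n, a, b, c, F, x, y, w, fun r => r.2, hM, hn, habc, hF, hd, h0⟩).imp id
      (isTwist_of_row _ hR hn hj)

theorem isTwist_of_row3 {p : ℕ} {Ω R M : Type} [Field Ω] [Field R] [Field M] [Algebra Ω M]
    [Algebra R M] {j : ℕ} (hj : Module.finrank R M ∣ p ^ j + 1)
    (h : Pool.Agent.Helper35.V7.Row3 Ω R M) : IsTwist p Ω R M := by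
  obtain ⟨n, a, b, x, y, z, w, hz, h1, h2, h3, h4, h5, h6, h7, h8, h9⟩ :=
    Pool.Agent.Helper73.V7.IsTwist.of_row3 h
  refine ⟨n, j, a, b, x, y, z, w, ?_, hz, h1, h2, h3, h4, h5, h6, h7, h8, h9⟩
  refine Dvd.dvd.trans ?_ hj
  let i : R →+* (adjoin Ω {x, y, z} : IntermediateField Ω M) := (algebraMap R M).codRestrict _ h1
  let _ : Algebra R (adjoin Ω {x, y, z} : IntermediateField Ω M) := i.toAlgebra
  have : IsScalarTower R (adjoin Ω {x, y, z} : IntermediateField Ω M) M :=
    IsScalarTower.of_algebraMap_eq fun _ => rfl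
  rw [← h3]
  exact ⟨_, by
    rw [mul_comm]
    exact (Module.finrank_mul_finrank R (adjoin Ω {x, y, z} : IntermediateField Ω M) M).symm⟩

/-- **Base change by `w ^ n`.** `K = Ω(x, y, w)`, `n = [K : Ω(x, y, w ^ n)]` divides `p ^ j + 1` and is
not zero in `Ω`, and `F(x, y, w ^ n) = 0` for a polynomial `F ≠ 0` of degree at most `a + b + c` for
some weights `a, b, 2 * c` of its variables. -/
theorem power {p : ℕ} {Ω K : Type} [Field Ω] [IsAlgClosed Ω] [Field K] [Algebra Ω K]
    (n j a b c : ℕ) (hj : n ∣ p ^ j + 1) (hn : (n : Ω) ≠ 0) (F : MvPolynomial (Fin 3) Ω)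
    (x y w : K) (hK : adjoin Ω {x, y, w} = ⊤)
    (hd : Module.finrank (adjoin Ω {x, y, w ^ n}) K = n) (habc : 0 < a + b + c) (hF : F ≠ 0)
    (hdeg : ∀ m ∈ F.support, a * m 0 + b * m 1 + 2 * c * m 2 ≤ a + b + c)
    (h0 : aeval ![x, y, w ^ n] F = 0) : IsCover p Ω K := by
  obtain ⟨R, h1, h2, h3, h4, h5⟩ := power_rows hn a b c F x y w hK hd habc hF hdeg h0
  refine ⟨R, h1, h2, h3, fun M _ => (h5 M).imp id fun h => Or.inl (isTwist_of_row3 (j := j) ?_ h)⟩
  refine Dvd.dvd.trans ?_ hj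
  rw [← h4]
  exact ⟨_, (Module.finrank_mul_finrank R M K).symm⟩

/-- **Elliptic surfaces.** `y ^ 2 + a₁ * x * y + a₃ * y = x ^ 3 + a₂ * x ^ 2 + a₄ * x + a₆`, where `aᵢ` is
a polynomial of degree at most `i / 2` in `w ^ n`, `K = Ω(x, y, w)`, and `n = [K : Ω(x, y, w ^ n)]`
divides `p ^ j + 1` and is not zero in `Ω`. -/
theorem elliptic_power {p : ℕ} {Ω K : Type} [Field Ω] [IsAlgClosed Ω] [Field K] [Algebra Ω K]
    (n j : ℕ) (hj : n ∣ p ^ j + 1) (hn : (n : Ω) ≠ 0) (a₁ a₂ a₃ a₄ a₆ : Polynomial Ω)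
    (h₁ : 2 * a₁.natDegree ≤ 1) (h₂ : 2 * a₂.natDegree ≤ 2) (h₃ : 2 * a₃.natDegree ≤ 3)
    (h₄ : 2 * a₄.natDegree ≤ 4) (h₆ : 2 * a₆.natDegree ≤ 6) (x y w : K)
    (hK : adjoin Ω {x, y, w} = ⊤) (hd : Module.finrank (adjoin Ω {x, y, w ^ n}) K = n)
    (h : y ^ 2 + Polynomial.aeval (w ^ n) a₁ * x * y + Polynomial.aeval (w ^ n) a₃ * y =
      x ^ 3 + Polynomial.aeval (w ^ n) a₂ * x ^ 2 + Polynomial.aeval (w ^ n) a₄ * x +
        Polynomial.aeval (w ^ n) a₆) : IsCover p Ω K := by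
  obtain ⟨a, b, c, F, habc, hF, hdeg, h0⟩ :=
    Pool.Agent.Helper73.V7.elliptic_data n a₁ a₂ a₃ a₄ a₆ h₁ h₂ h₃ h₄ h₆ x y w h
  exact power n j a b c hj hn F x y w hK hd habc hF hdeg h0

variable {p : ℕ} [hp : Fact p.Prime] {Ω : Type} [Field Ω] [CharP Ω p] [IsAlgClosed Ω]
  {K : Type} [Field K] [Algebra Ω K]

omit hp [CharP Ω p] [IsAlgClosed Ω] in
theorem tameRow_of_twist {R M : Type} [Field R] [Field M] [Algebra Ω R] [Algebra Ω M]
    [Algebra R M] [IsScalarTower Ω R M] [FiniteDimensional R M] [IsGalois R M]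
    (h : IsTwist p Ω R M) : TameRow p Ω R M := by
  obtain ⟨n, j, a, b, x, y, z, w, hj, hz, h1, h2, h3, h4, h5, h6, h7, h8, h9⟩ := h
  let i : R →+* (adjoin Ω {x, y, z} : IntermediateField Ω M) := (algebraMap R M).codRestrict _ h1
  let _ : Algebra R (adjoin Ω {x, y, z} : IntermediateField Ω M) := i.toAlgebra
  have : IsScalarTower R (adjoin Ω {x, y, z} : IntermediateField Ω M) M :=
    IsScalarTower.of_algebraMap_eq fun _ => rfl
  have : FiniteDimensional (adjoin Ω {x, y, z} : IntermediateField Ω M) M :=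
    FiniteDimensional.right R _ M
  have : IsGalois (adjoin Ω {x, y, z} : IntermediateField Ω M) M :=
    IsGalois.tower_top_of_isGalois R _ M
  exact ⟨adjoin Ω {x, y, z}, j, h1, by rw [h3]; exact hj, Or.inr
    (Pool.Agent.Helper73.V7.IsTwist.row
      ⟨n, a, b, x, y, z, w, hz, fun r => r.2, h2, h3, h4, h5, h6, h7, h8, h9⟩)⟩

omit hp [CharP Ω p] in
theorem tameRow_of_curve {R M : Type} [Field R] [Field M] [Algebra Ω R] [Algebra Ω M]
    [Algebra R M] [IsScalarTower Ω R M] [FiniteDimensional R M] [IsGalois R M]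
    (h : IsCurve p Ω R M) : Pool.Agent.Helper75.QC.Uniruled Ω M 2 ∨ TameRow p Ω R M := by
  obtain ⟨n, j, a, b, r, d, e, f, x, y, w, hj, h1, h2, rfl, hf, hdvd, h, hw⟩ := h
  let i : R →+* (adjoin Ω {x, y} : IntermediateField Ω M) := (algebraMap R M).codRestrict _ h1
  let _ : Algebra R (adjoin Ω {x, y} : IntermediateField Ω M) := i.toAlgebra
  have : IsScalarTower R (adjoin Ω {x, y} : IntermediateField Ω M) M :=
    IsScalarTower.of_algebraMap_eq fun _ => rfl
  have : FiniteDimensional (adjoin Ω {x, y} : IntermediateField Ω M) M :=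
    FiniteDimensional.right R _ M
  have : IsGalois (adjoin Ω {x, y} : IntermediateField Ω M) M :=
    IsGalois.tower_top_of_isGalois R _ M
  have hdeg : a = 1 → b = 1 → ∀ i, (f i).totalDegree ≤ d i := by
    rintro rfl rfl i
    refine Finset.sup_le fun m hm => ?_
    have h1 := hf i m hm
    rw [one_mul, one_mul] at h1
    rw [Finsupp.sum_fintype _ _ (fun _ => rfl), Fin.sum_univ_two]
    exact h1
  have hplane : ∀ g1 : a = 1, ∀ g2 : b = 1, _ → _ := fun g1 g2 g3 =>
    (Pool.Agent.Helper48.V7.IsListed.row (Ω := Ω) (R := (adjoin Ω {x, y} : IntermediateField Ω M))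
      (M := M) ⟨x, y, w, fun r => r.2, h2, Or.inl ⟨r, d, e, f, hdeg g1 g2, hdvd, g3, hw⟩⟩).imp id
        fun h => (⟨adjoin Ω {x, y}, j, h1, hj, h⟩ : TameRow p Ω R M)
  rcases h with ⟨⟨hab, hn⟩ | ⟨g1, g2, hn⟩, hnat⟩ | ⟨g1, g2, g3⟩
  · refine (Pool.Agent.Helper48.V9.IsWCurve.row (Ω := Ω)
      (R := (adjoin Ω {x, y} : IntermediateField Ω M)) (M := M) x y w (fun r => r.2) h2
      ⟨a, b, r, d, e, f, hab, hn, hf, fun k hk hkn => hnat k hk ?_, hw⟩).imp id
        fun h => ⟨adjoin Ω {x, y}, j, h1, hj, Or.inl h⟩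
    by_contra hcon
    push Not at hcon
    obtain ⟨g1, g2⟩ := hcon
    have g3 : k ∣ 1 := by
      rw [← hkn]
      exact Nat.dvd_gcd dvd_rfl ⟨2, by rw [← g1, mul_comm]⟩
    have g4 := Nat.dvd_one.1 g3
    omega
  · subst g1 g2
    refine hplane rfl rfl (Or.inl ⟨hn, fun k hk g3 => ?_⟩)
    have g4 := hnat k hk g3
    rwa [mul_comm 2]
  · exact hplane g1 g2 (Or.inr g3)

omit hp [CharP Ω p] in
theorem IsCover.cover (h : IsCover p Ω K) : IsCoverX p Ω K := by
  obtain ⟨R, h1, h2, h3, h4⟩ := h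
  refine ⟨R, h1, h2, h3, fun M hc => ?_⟩
  have hG : IsGalois R M := Pool.Agent.Helper35.WC.isGalois_of_comm h3 M
  rcases h4 M hc with h | h | h | h
  · exact Or.inl h
  · exact Or.inr (Or.inl (tameRow_of_twist h))
  · exact (tameRow_of_curve h).imp id Or.inl
  · exact Or.inr (Or.inr h)

omit hp [CharP Ω p] [IsAlgClosed Ω] in
/-- the covers with wild twists only -/
theorem isCover_of (h : IsCoverW p Ω K) : IsCover p Ω K := by
  obtain ⟨R, h1, h2, h3, h4⟩ := h
  refine ⟨R, h1, h2, h3, fun M hc => ?_⟩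
  exact (h4 M hc).imp id fun h => Or.inr (Or.inr h)

/-- **Base change by an additive polynomial.** `K = Ω(x, y, w)` and `F(x, y, u) = 0`, where
`u = l 0 * w + l 1 * w ^ p + ⋯ + l e * w ^ p ^ e`, `l 0 ≠ 0`, `l e ≠ 0`, and `F ≠ 0` is a polynomial of
degree at most `a + b + c` for some weights `a, b, 2 * c` of its variables. -/
theorem additive (e : ℕ) (l : ℕ → Ω) (hl0 : l 0 ≠ 0) (hle : l e ≠ 0) (a b c : ℕ)
    (F : MvPolynomial (Fin 3) Ω) (x y w u : K) (hK : adjoin Ω {x, y, w} = ⊤)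
    (hu : u = ∑ i ∈ Finset.range (e + 1), algebraMap Ω K (l i) * w ^ p ^ i)
    (habc : 0 < a + b + c) (hF : F ≠ 0)
    (hd : ∀ m ∈ F.support, a * m 0 + b * m 1 + 2 * c * m 2 ≤ a + b + c)
    (h0 : aeval ![x, y, u] F = 0) : IsCover p Ω K := by
  let _ : Algebra (ZMod p) Ω := ZMod.algebra Ω p
  rw [hu] at h0
  exact isCover_of (isCoverW_add hl0 hle a b c F x y w hK habc hF hd h0)

/-- **Double planes.** `K = Ω(x, y, w)` and `y ^ 2 = G(x, u) * y + F(x, u)`, where
`u = l 0 * w + l 1 * w ^ p + ⋯ + l e * w ^ p ^ e`, `l 0 ≠ 0`, `l e ≠ 0`, and for some weights `a`, `b` of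
`x`, `u` and some `g`, `h` with `p * g ≤ b` and `2 * h ≤ b` (`3 * h ≤ b` if `p = 2`), not all of `a`, `g`,
`h` zero, the degree of `F` is at most `2 * (a + h + g)` and the degree of `G` at most `a + h + g`. -/
theorem double_additive (e : ℕ) (l : ℕ → Ω) (hl0 : l 0 ≠ 0) (hle : l e ≠ 0) (a b g h : ℕ)
    (hh : (if p = 2 then 3 else 2) * h ≤ b) (hg : p * g ≤ b) (hpos : 0 < a + h + g)
    (F G : MvPolynomial (Fin 2) Ω) (x y w u : K) (hK : adjoin Ω {x, y, w} = ⊤)
    (hu : u = ∑ i ∈ Finset.range (e + 1), algebraMap Ω K (l i) * w ^ p ^ i)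
    (hF : ∀ m ∈ F.support, a * m 0 + b * m 1 ≤ 2 * (a + h + g))
    (hG : ∀ m ∈ G.support, a * m 0 + b * m 1 ≤ a + h + g)
    (hy : y ^ 2 = aeval ![x, u] G * y + aeval ![x, u] F) : IsCover p Ω K := by
  let _ : Algebra (ZMod p) Ω := ZMod.algebra Ω p
  rw [hu] at hy
  exact isCover_of
    (Pool.Agent.Helper48.V10.isCoverW_dbl' hl0 hle hh hg hpos F G x y w hK hF hG hy)

/-- **Elliptic surfaces.** `y ^ 2 + a₁ * x * y + a₃ * y = x ^ 3 + a₂ * x ^ 2 + a₄ * x + a₆`, where `aᵢ` is
a polynomial of degree at most `i * (P + 2) / (2 * P)`, `P = max p 3`, in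
`u = l 0 * w + l 1 * w ^ p + ⋯ + l e * w ^ p ^ e`, `l 0 ≠ 0`, `l e ≠ 0`. -/
theorem elliptic_additive (e : ℕ) (l : ℕ → Ω) (hl0 : l 0 ≠ 0) (hle : l e ≠ 0)
    (a₁ a₂ a₃ a₄ a₆ : Polynomial Ω) (h₁ : 2 * max p 3 * a₁.natDegree ≤ max p 3 + 2)
    (h₂ : 2 * max p 3 * a₂.natDegree ≤ 2 * (max p 3 + 2))
    (h₃ : 2 * max p 3 * a₃.natDegree ≤ 3 * (max p 3 + 2))
    (h₄ : 2 * max p 3 * a₄.natDegree ≤ 4 * (max p 3 + 2))
    (h₆ : 2 * max p 3 * a₆.natDegree ≤ 6 * (max p 3 + 2))
    (x y w u : K) (hK : adjoin Ω {x, y, w} = ⊤)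
    (hu : u = ∑ i ∈ Finset.range (e + 1), algebraMap Ω K (l i) * w ^ p ^ i)
    (h : y ^ 2 + Polynomial.aeval u a₁ * x * y + Polynomial.aeval u a₃ * y =
      x ^ 3 + Polynomial.aeval u a₂ * x ^ 2 + Polynomial.aeval u a₄ * x +
        Polynomial.aeval u a₆) : IsCover p Ω K := by
  let _ : Algebra (ZMod p) Ω := ZMod.algebra Ω p
  exact isCover_of
    (Pool.Agent.Helper48.V10.isCoverW_ell hl0 hle a₁ a₂ a₃ a₄ a₆ h₁ h₂ h₃ h₄ h₆ x y w u hK hu h)

/-- **Covers of the plane.** `K` is generated by `x`, `y` and `w_1, …, w_r` with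
`w_i ^ p - w_i = f_i(x, y) / g(x, y) ^ 2`, and for the weights `a`, `b` of `x`, `y` and for
`P = max p 3`, `deg g ≤ e ≤ a + b` and `deg f_i ≤ d`, `(P - 2) * d + 4 * e ≤ 2 * P * (a + b)`. -/
theorem plane {a b d e r : ℕ} (f : Fin r → MvPolynomial (Fin 2) Ω)
    (g : MvPolynomial (Fin 2) Ω) (x y : K) (w : Fin r → K) (hab : 0 < a + b)
    (hf : ∀ i, ∀ m ∈ (f i).support, a * m 0 + b * m 1 ≤ d)
    (hg : ∀ m ∈ g.support, a * m 0 + b * m 1 ≤ e) (he : e ≤ a + b)
    (hd : (max p 3 - 2) * d + 4 * e ≤ 2 * max p 3 * (a + b))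
    (hxy : AlgebraicIndependent Ω ![x, y]) (hK : adjoin Ω ({x, y} ∪ Set.range w) = ⊤)
    (hg0 : aeval ![x, y] g ≠ 0)
    (hw : ∀ i, (w i ^ p - w i) * aeval ![x, y] g ^ 2 = aeval ![x, y] (f i)) : IsCover p Ω K := by
  let _ : Algebra (ZMod p) Ω := ZMod.algebra Ω p
  exact isCover_of (isCoverW_plane hab hf hg he hd hxy hK hg0 hw)

/-- The same for `L(w) = f(x, y) / g(x, y) ^ 2`, `L(w) = l 0 * w + l 1 * w ^ p + ⋯ + l j * w ^ p ^ j`. -/
theorem plane_additive {a b d e j : ℕ} (l : ℕ → Ω) (hl0 : l 0 ≠ 0) (hlj : l j ≠ 0) (hj : 0 < j)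
    (f g : MvPolynomial (Fin 2) Ω) (x y w : K) (hab : 0 < a + b)
    (hf : ∀ m ∈ f.support, a * m 0 + b * m 1 ≤ d) (hg : ∀ m ∈ g.support, a * m 0 + b * m 1 ≤ e)
    (he : e ≤ a + b)
    (hd : (max p 3 - 2) * d + 4 * e ≤ 2 * max p 3 * (a + b))
    (hK : adjoin Ω {x, y, w} = ⊤) (hg0 : aeval ![x, y] g ≠ 0)
    (hw : (∑ i ∈ Finset.range (j + 1), algebraMap Ω K (l i) * w ^ p ^ i) * aeval ![x, y] g ^ 2 =
      aeval ![x, y] f) : IsCover p Ω K := by
  let _ : Algebra (ZMod p) Ω := ZMod.algebra Ω p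
  exact isCover_of (isCoverW_plane_add hl0 hlj hj hab hf hg he hd hK hg0 hw)

end Examples

/-- The classes in `H^2(K₀) ⊗ H^2(K₀')` are supported on divisors, and the Tate classes are
algebraic. -/
theorem result {p : ℕ} [hp : Fact p.Prime] {Ω L : Type} [Field Ω] [CharP Ω p] [IsAlgClosed Ω] [Field L]
    [CharZero L] [IsAlgClosed L] (T : FrobCoh Ω L) (hT : T.IsFrob p) {K K' K₀ K₀' : Ext Ω}
    (hK : IsCover p Ω K) (hK' : IsCover p Ω K') (j : K₀.Hom K) (j' : K₀'.Hom K')
    (hj : j.IsAlgebraic) (hj' : j'.IsAlgebraic) :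
    T.sup K₀ K₀' = ⊤ ∧ T.tateClasses p K₀ K₀' ≤ T.cyc K₀ K₀' :=
  T.mainX hT hK.cover hK'.cover j j' hj hj'

end Pool.Agent.Results.MP_8abef2_ag.SupersingularTwists
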