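import Pool.Agent.Helper29.PF.Two

/-!
# Systems of equations in forms
-/

set_option autoImplicit false

namespace Pool.Agent.Results.MP_e93a6a_ag.SystemsOfForms

open MvPolynomial Pool.Agent.Helper29.PF Pool.Agent.Helper67.SF

/-- Let `k` be a finite field of characteristic `p`, let `P` be a stable class of finitely
generated rings of characteristic `p`, and let `F_1, ..., F_s` be forms over `k` in disjoint sets
of variables.

(1) `P` contains `k[x] / (a_0 + ∑ a_j F_j, b_0 + ∑ b_j F_j)`, where `x` are all the variables, for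
all `a_j`, `b_j` in `k`.

(2) Let `T` be a finitely generated `k`-algebra and let `V` be a good system of equations in `s`
unknowns over `T`. Then `P` contains `T[x] / (H(F_1, ..., F_s) : H ∈ V)`. -/
theorem result (p : ℕ) (hp : p.Prime) (P : ∀ (A : Type) [CommRing A], Prop)
    (hP : StableClass p P) (k : Type) [Field k] [Finite k] [CharP k p] (s : ℕ)
    (σ : Fin s → Type) [∀ j, Fintype (σ j)] (F : ∀ j, MvPolynomial (σ j) k) (d : Fin s → ℕ)
    (hF : ∀ j, Form (F j) (d j)) :
    (∀ (a₀ b₀ : k) (a b : Fin s → k), P (MvPolynomial (Σ j, σ j) k ⧸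
      Ideal.span {C a₀ + ∑ j, C (a j) * rename (Sigma.mk j) (F j),
        C b₀ + ∑ j, C (b j) * rename (Sigma.mk j) (F j)})) ∧
    ∀ (T : Type) [CommRing T] [Algebra k T], Algebra.FiniteType k T →
      ∀ V : Set (MvPolynomial (Fin s) T), IsGoodSystem p V →
        P (MvPolynomial (Σ j, σ j) T ⧸ Ideal.span ((fun H => compT H F) '' V)) :=
  ⟨fun a₀ b₀ a b => two_linear hp hP hF a₀ b₀ a b, fun _ _ _ hT _ hV => mainT hp hP hT hF hV⟩

end Pool.Agent.Results.MP_e93a6a_ag.SystemsOfForms
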