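import Pool.Agent.Helper73.WS.Mult
import Pool.Agent.Helper73.KT.Part
import Pool.Agent.Helper54.WS.Frame
import Pool.Agent.Helper68.WS.EllSum
import Pool.Agent.Helper9.WS.Core
import Pool.Agent.Helper9.WS.CoreMid
import Pool.Agent.Helper4.WS.Poly
import Pool.Agent.Helper34.WS.SumEq
import Pool.Agent.Helper32.WS.Cmp
import Pool.Agent.Helper56.WS.Fermat
import Pool.Agent.Helper6.WS.CubicPoly

/-!
# Frobenius on the second cohomology of wild covers
-/

open MvPolynomial Finset Module

namespace Pool.Agent.Results.MP_1fe969_ag.WildCovers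

open Pool.Agent.Helper9.WS hiding Part
open Pool.Agent.Helper73.KT Pool.Agent.Helper73.WS

/-- the parts of the second cohomology of the wild covers -/
inductive Part (k : Type) [Field k] : Type
  /-- the part of `w ^ p - w = f (x, y)` belonging to a character -/
  | plane (f : MvPolynomial (Fin 2) k)
  /-- `y² = x³ + a₂(t) x² + a₄(t) x + a₆(t)` over `w ^ p - w = g (t)` -/
  | elliptic (a₂ a₄ a₆ g : Polynomial k)

namespace Part

variable {k : Type} [Field k]

/-- the part belonging to the inverse character -/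
noncomputable def neg : Part k → Part k
  | plane f => plane (-f)
  | elliptic a₂ a₄ a₆ g => elliptic a₂ a₄ a₆ (-g)

open scoped Classical in
/-- the exponential sum over the points with values in `K` -/
noncomputable def sum {p : ℕ} {L : Type} [Field L] (ψ : AddChar (ZMod p) L) (K : Type) [Field K]
    [Fintype K] [Algebra k K] [Algebra (ZMod p) K] : Part k → L
  | plane f => ∑ x : K, ∑ y : K, ψ (Algebra.trace (ZMod p) K (aeval ![x, y] f))
  | elliptic a₂ a₄ a₆ g => ∑ x : K, ∑ t : K,
      ((quadraticChar K (x ^ 3 + Polynomial.aeval t a₂ * x ^ 2 + Polynomial.aeval t a₄ * x +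
        Polynomial.aeval t a₆) : ℤ) : L) *
        ψ (Algebra.trace (ZMod p) K (Polynomial.aeval t g))

/-- the parts for which the theorem is proved; `k` has `p ^ s` elements -/
def Good (p s : ℕ) (L : Type) [Field L] [Fintype k] : Part k → Prop
  | plane f => PlaneGood p s f
  | elliptic a₂ a₄ a₆ g => (∃ m e, CubicType p m e a₂ a₄ a₆ g) ∧ SimpleMW p L a₂ a₄ a₆

end Part

/-- Frobenius on `V = H²(X̄, L)` and the parts of `V` belonging to the characters of the group of
the cover; `k` is the field of definition. -/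
structure WildH2 (p : ℕ) (k L V J : Type) [Field k] [Fintype k] [Field L] [AddCommGroup V]
    [Module L V] where
  /-- the geometric Frobenius -/
  Fr : End L V
  injective : Function.Injective Fr
  /-- the cup product -/
  B : LinearMap.BilinForm L V
  symm : ∀ x y, B x y = B y x
  similitude : ∀ x y, B (Fr x) (Fr y) = (Fintype.card k : L) ^ 2 * B x y
  /-- the span of algebraic classes -/
  N : Submodule L V
  N_stable : ∀ x ∈ N, Fr x ∈ N
  N_semisimple : End.IsSemisimple (Fr.restrict N_stable)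
  /-- a character of the field with `p` elements -/
  ψ : AddChar (ZMod p) L
  ψ_ne : ψ ≠ 1
  /-- the data of the parts -/
  part : J → Part k
  /-- the parts -/
  W : J → Submodule L V
  span : N ⊔ ⨆ j, W j = ⊤
  stable : ∀ j, ∀ x ∈ W j, Fr x ∈ W j
  /-- the part of the inverse character -/
  dual : J → J
  part_dual : ∀ j, part (dual j) = (part j).neg
  perfect : ∀ j, ∀ v ∈ W j, (∀ w ∈ W (dual j), B v w = 0) → v = 0
  trace_formula : ∀ (j : J) (m : ℕ), 0 < m → ∀ (K : Type) [Field K] [Fintype K] [Algebra k K]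
    [Algebra (ZMod p) K], Fintype.card K = Fintype.card k ^ m →
      LinearMap.trace L (W j) ((Fr.restrict (stable j)) ^ m) = (part j).sum ψ K

/-- an extension of degree `m` inside `κ` -/
private theorem exists_ext {p : ℕ} [Fact p.Prime] {κ : Type} [Field κ] [IsAlgClosed κ] {k : Type}
    [Field k] [Fintype k] [CharP k p] [Algebra k κ] {m : ℕ} (hm : 0 < m) :
    ∃ (K : Type) (_ : Field K) (_ : Fintype K) (_ : Algebra k K) (_ : Algebra (ZMod p) K)
      (_ : K →ₐ[k] κ), Fintype.card K = Fintype.card k ^ m := by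
  obtain ⟨K, _, _, hK⟩ := exists_field k hm
  have : Module.Finite k K := Module.finite_of_finrank_pos (by rw [hK]; exact hm)
  have : Finite K := Module.finite_of_finite k
  have hF : Fintype K := Fintype.ofFinite K
  have : CharP K p := charP_of_injective_algebraMap (algebraMap k K).injective p
  have : Algebra.IsAlgebraic k K := Algebra.IsAlgebraic.of_finite k K
  exact ⟨K, inferInstance, hF, inferInstance, ZMod.algebra K p, IsAlgClosed.lift, by
    rw [Module.card_eq_pow_finrank (K := k), hK]⟩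

private theorem planeSum_eq {p : ℕ} {κ L : Type} [Field κ] [Field L] (Φ : Frame p κ L) {k : Type}
    [Field k] [Algebra k κ] {ψ : AddChar (ZMod p) L} (f : MvPolynomial (Fin 2) k) (K : Type)
    [Field K] [Fintype K] [Algebra k K] [Algebra (ZMod p) K] (ι : K →ₐ[k] κ) :
    (Part.plane f).sum ψ K = wildSum Φ ψ (fun _ => 0) K ι f := by
  rw [wildSum, Part.sum, ← Fintype.sum_prod_type']
  refine Fintype.sum_equiv (finTwoArrowEquiv K).symm _ _ fun x => ?_
  simp [finTwoArrowEquiv]

private theorem plane_equiv {p : ℕ} [Fact p.Prime] {L : Type} [Field L] (ψ : AddChar (ZMod p) L)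
    {k : Type} [Field k] (K : Type) [Field K] [Fintype K] [Algebra k K] [Algebra (ZMod p) K]
    (f : MvPolynomial (Fin 2) k) (φ : MvPolynomial (Fin 2) k ≃ₐ[k] MvPolynomial (Fin 2) k)
    (h : MvPolynomial (Fin 2) k) :
    (Part.plane (φ f + h ^ p - h)).sum ψ K = (Part.plane f).sum ψ K :=
  sum_equiv ψ K f φ h

/-- coordinates in which `f` has simple blocks -/
private theorem exists_coordinates {p : ℕ} [Fact p.Prime] {k : Type} [Field k] [Fintype k] {s : ℕ}
    (hk : Fintype.card k = p ^ s) {f : MvPolynomial (Fin 2) k} (hf : PlaneGood p s f) :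
    ∃ f' : MvPolynomial (Fin 2) k, (∃ l S, PolyBlocks p s l S f') ∧
      ∀ {L : Type} [Field L] (ψ : AddChar (ZMod p) L) (K : Type) [Field K] [Fintype K]
        [Algebra k K] [Algebra (ZMod p) K], (Part.plane f').sum ψ K = (Part.plane f).sum ψ K := by
  obtain ⟨φ, h, ⟨a, b, hf⟩ | hf | hf⟩ := hf
  · exact ⟨_, fermat_poly hk hf, fun ψ K _ _ _ _ => plane_equiv ψ K f φ h⟩
  · obtain ⟨φ', hφ'⟩ := cubic_poly hk hf
    refine ⟨_, ⟨3, {(1, 1)}, hφ'⟩, fun ψ K _ _ _ _ => ?_⟩
    rw [← plane_equiv ψ K f φ h, ← plane_equiv ψ K (φ f + h ^ p - h) φ' 0,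
      zero_pow (Fact.out : p.Prime).ne_zero, add_zero, sub_zero]
  · exact ⟨_, hf, fun ψ K _ _ _ _ => plane_equiv ψ K f φ h⟩

private theorem ellVal_cubF {R k : Type} [Field k] [CommRing R] [Algebra k R]
    (a₂ a₄ a₆ : Polynomial k) (x t : R) : ellVal (cubF a₂ a₄ a₆) x t =
      x ^ 3 + Polynomial.aeval t a₂ * x ^ 2 + Polynomial.aeval t a₄ * x +
        Polynomial.aeval t a₆ := by
  simp [ellVal, cubF]

/-- a natural number prime to `p` is a unit at the places over `p` -/
private theorem v_natCast {p : ℕ} [Fact p.Prime] {κ L : Type} [Field κ] [Field L]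
    (Φ : Frame p κ L) {N : ℕ} (hN : ¬ p ∣ N) : Φ.v (N : L) = 1 := by
  have hle : ∀ n : ℤ, Φ.v (n : L) ≤ 1 := fun n => by
    rw [ValuationSubring.valuation_le_one_iff]
    exact intCast_mem Φ.O n
  have hcop : IsCoprime (p : ℤ) (N : ℤ) := by
    rw [Nat.isCoprime_iff_coprime]
    exact ((Fact.out : p.Prime).coprime_iff_not_dvd).2 hN
  obtain ⟨a, b, hab⟩ := hcop
  have h1 : ((a : ℤ) : L) * (p : L) + ((b : ℤ) : L) * (N : L) = 1 := by
    exact_mod_cast congrArg (Int.cast : ℤ → L) hab
  refine le_antisymm (by exact_mod_cast hle N) ?_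
  by_contra hlt
  rw [not_le] at hlt
  have h2 : Φ.v (((a : ℤ) : L) * (p : L) + ((b : ℤ) : L) * (N : L)) < 1 := by
    refine Valuation.map_add_lt _ ?_ ?_
    · rw [map_mul]
      exact (mul_le_of_le_one_left zero_le (hle a)).trans_lt Φ.p_lt
    · rw [map_mul]
      exact (mul_le_of_le_one_left zero_le (hle b)).trans_lt hlt
  rw [h1, map_one] at h2
  exact lt_irrefl _ h2

/-- roots of unity of order prime to `p` which are congruent at a place over `p` are equal -/
private theorem root_eq {p : ℕ} [Fact p.Prime] {κ L : Type} [Field κ] [Field L]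
    (Φ : Frame p κ L) {N : ℕ} (hN : ¬ p ∣ N) {c d : L} (hc : c ^ N = 1) (hd : d ^ N = 1)
    (h : Φ.v (c - d) < 1) : c = d := by
  have hN0 : N ≠ 0 := by
    rintro rfl
    exact hN (dvd_zero p)
  have hd0 : d ≠ 0 := by
    rintro rfl
    rw [zero_pow hN0] at hd
    exact zero_ne_one hd
  have hvd : Φ.v d = 1 := by
    have h1 : Φ.v d ^ N = 1 := by rw [← map_pow, hd, map_one]
    rcases lt_trichotomy (Φ.v d) 1 with h2 | h2 | h2
    · exact absurd h1 (pow_lt_one' h2 hN0).ne
    · exact h2
    · exact absurd h1 (one_lt_pow' h2 hN0).ne'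
  set z : L := c / d with hz
  have hz1 : Φ.v (z - 1) < 1 := by
    have h1 : z - 1 = (c - d) / d := by rw [hz]; field_simp
    rw [h1, map_div₀, hvd, div_one]
    exact h
  have hzv : Φ.v z ≤ 1 := by
    have h1 : z = (z - 1) + 1 := by ring
    rw [h1]
    exact (Φ.v.map_add _ _).trans (max_le hz1.le (by rw [map_one]))
  have hzj : ∀ j : ℕ, Φ.v (z ^ j - 1) < 1 := by
    intro j
    induction j with
    | zero => rw [pow_zero, sub_self, map_zero]; exact zero_lt_one
    | succ j ih =>
      have h1 : z ^ (j + 1) - 1 = (z ^ j - 1) * z + (z - 1) := by ring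
      rw [h1]
      refine Valuation.map_add_lt _ ?_ hz1
      rw [map_mul]
      exact (mul_le_of_le_one_right zero_le hzv).trans_lt ih
  by_contra hne
  have hzne : z ≠ 1 := fun h1 => hne (by rw [hz, div_eq_one_iff_eq hd0] at h1; exact h1)
  have hzN : z ^ N = 1 := by rw [hz, div_pow, hc, hd, div_one]
  have hgeom : ∑ j ∈ range N, z ^ j = 0 := by
    have h1 := geom_sum_mul z N
    rw [hzN, sub_self] at h1
    exact (mul_eq_zero.1 h1).resolve_right (sub_ne_zero.2 hzne)
  have h2 : Φ.v (∑ j ∈ range N, (z ^ j - 1)) < 1 :=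
    Valuation.map_sum_lt _ one_ne_zero fun j _ => hzj j
  rw [Finset.sum_sub_distrib, hgeom, Finset.sum_const, card_range, nsmul_eq_mul, mul_one,
    zero_sub, Valuation.map_neg, v_natCast Φ hN] at h2
  exact lt_irrefl _ h2

section pieces

variable {p : ℕ} [Fact p.Prime] {κ L : Type} [Field κ] [CharP κ p] [IsAlgClosed κ] [Field L]
  [CharZero L] [IsAlgClosed L] (Φ : Frame p κ L)
  (hadd : ∀ x y, Φ.v (Φ.T x + Φ.T y - Φ.T (x + y)) < 1) {k : Type} [Field k] [Fintype k]
  [CharP k p] [Algebra k κ] {s : ℕ} (hk : Fintype.card k = p ^ s) {ψ : AddChar (ZMod p) L}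
  (hψ : ψ ≠ 1) {W : Type} [AddCommGroup W] [Module L W] [FiniteDimensional L W] {T : End L W}

include hadd hk hψ in
/-- the eigenvalues of slope at most one of a part are simple -/
private theorem part_mult {P : Part k} (hP : P.Good p s L)
    (hT : ∀ m, 0 < m → ∀ (K : Type) [Field K] [Fintype K] [Algebra k K] [Algebra (ZMod p) K],
      Fintype.card K = Fintype.card k ^ m → LinearMap.trace L W (T ^ m) = P.sum ψ K)
    {c : L} (hc : Φ.v (p : L) ^ s ≤ Φ.v c) : mult T c ≤ 1 := by
  classical
  obtain ⟨β, hβ, hcount⟩ := exists_enum T rfl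
  have hp2 := (Fact.out : p.Prime).two_le
  cases P with
  | plane f =>
    obtain ⟨f', ⟨l, S, hf'⟩, hsum⟩ := exists_coordinates hk hP
    obtain ⟨ω, low, _, hb⟩ := poly_blocks hf'
    have h1 := core Φ hadd hk (fun _ => by omega) (Nat.add_one_pos _) hb hψ β (fun m hm => by
      obtain ⟨K, _, _, _, _, ι, hK⟩ := exists_ext (p := p) (κ := κ) (k := k) hm
      refine ⟨K, inferInstance, inferInstance, inferInstance, inferInstance, ι, hK, ?_⟩
      rw [← hβ m, hT m hm K hK, ← hsum ψ K, planeSum_eq Φ f' K ι]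
      norm_num)
    refine mult_le_one hcount fun i j hi hij => h1.2 i j ?_ hij
    rw [hi, Nat.add_sub_cancel, Nat.mul_comm (p - 1) ω.l, pow_mul]
    exact pow_le_pow_left' hc _
  | elliptic a₂ a₄ a₆ g =>
    obtain ⟨⟨m₀, e₀, hC⟩, r, N, b, hN, hbN, hbinj, hbsum⟩ := hP
    have hp : p ≠ 2 := by
      rintro rfl
      have hg := hC.g_pos
      obtain ⟨x, hx⟩ := hC.dvd
      rw [mul_assoc, mul_assoc] at hx
      omega
    obtain ⟨C, C', ω, ω', low, _, hb, _, hcmp⟩ := cubic_compare hC s
    set ε : L := ((quadraticChar k (-1) : ℤ) : L) with hε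
    have hε2 : ε ^ 2 = 1 := by
      rw [hε, ← Int.cast_pow, quadraticChar_sq_one (neg_ne_zero.2 one_ne_zero), Int.cast_one]
    have hvε : Φ.v ε = 1 := by
      have h2 : Φ.v ε ^ 2 = 1 := by rw [← map_pow, hε2, map_one]
      rcases lt_trichotomy (Φ.v ε) 1 with h | h | h
      · exact absurd h2 (pow_lt_one' h (by norm_num)).ne
      · exact h
      · exact absurd h2 (one_lt_pow' h (by norm_num)).ne'
    have hpL : (p : L) ≠ 0 := Nat.cast_ne_zero.2 (by omega)
    have hV0 : Φ.v (p : L) ≠ 0 := (map_ne_zero _).2 hpL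
    have hq : (Fintype.card k : L) = (p : L) ^ s := by rw [hk, Nat.cast_pow]
    have hvq : Φ.v (ε * (Fintype.card k : L)) = Φ.v (p : L) ^ s := by
      rw [map_mul, hvε, one_mul, hq, map_pow]
    have hN0 : N ≠ 0 := by
      rintro rfl
      exact hN (dvd_zero p)
    have hvb : ∀ i, Φ.v (b i) = 1 := by
      intro i
      have h1 : Φ.v (b i) ^ N = 1 := by rw [← map_pow, hbN, map_one]
      rcases lt_trichotomy (Φ.v (b i)) 1 with h2 | h2 | h2
      · exact absurd h1 (pow_lt_one' h2 hN0).ne
      · exact h2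
      · exact absurd h1 (one_lt_pow' h2 hN0).ne'
    set e := ω.l * (p - 1) with he
    have he0 : 0 < e := Nat.mul_pos ω.l_pos (by omega)
    have h2e : 2 * ((p - 1) * ω.l) = e + e := by
      rw [Nat.mul_comm (p - 1) ω.l, ← he]; omega
    have h1 := core_mid Φ hadd hk (c := ellc p) (fun j => by
        fin_cases j <;> simp [ellc] <;> omega) (by omega) hb hcmp hψ
      (fun i => ε * (Fintype.card k : L) * β i) (fun m hm => by
        obtain ⟨K, _, _, _, _, ι, hK⟩ := exists_ext (p := p) (κ := κ) (k := k) hm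
        refine ⟨K, inferInstance, inferInstance, inferInstance, inferInstance, ι, hK, ?_⟩
        rw [← ell_sum hp Φ hψ ι hK (cubF a₂ a₄ a₆) g]
        simp_rw [mul_pow (ε * (Fintype.card k : L))]
        simp_rw [ellVal_cubF]
        rw [← Finset.mul_sum, ← hβ m, hT m hm K hK, Part.sum,
          show ((-1 : L) ^ 4) = 1 by norm_num, one_mul])
      (fun i => ε * (Fintype.card k : L) * ((Fintype.card k : L) * b i)) (fun m hm => by
        obtain ⟨K, _, _, _, _, ι, hK⟩ := exists_ext (p := p) (κ := κ) (k := k) hm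
        refine ⟨K, inferInstance, inferInstance, inferInstance, inferInstance, ι, hK, ?_⟩
        rw [← ell_sum hp Φ hψ ι hK (cubF a₂ a₄ a₆) 0]
        simp_rw [ellVal_cubF]
        simp only [map_zero, AddChar.map_zero_eq_one, mul_one]
        rw [hbsum m hm K hK, show ((-1 : L) ^ 4) = 1 by norm_num, one_mul, hK]
        simp_rw [mul_pow]
        rw [Nat.cast_pow, Finset.mul_sum, Finset.mul_sum]
        )
      (fun i => by
        rw [map_mul, hvq, map_mul, hvb, mul_one, hq, map_pow, ← he, h2e, ← pow_add, ← pow_mul]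
        congr 1
        ring)
      (fun i j hij => by
        apply hbinj
        apply root_eq Φ hN (hbN i) (hbN j)
        have h3 : ε * (Fintype.card k : L) * ((Fintype.card k : L) * b i) -
            ε * (Fintype.card k : L) * ((Fintype.card k : L) * b j) =
            (ε * (Fintype.card k : L) * (Fintype.card k : L)) * (b i - b j) := by ring
        rw [h3, map_mul, ← mul_assoc, map_mul _ _ (b i), hvb, mul_one] at hij
        have h4 : 0 < Φ.v (ε * (Fintype.card k : L) * (Fintype.card k : L)) := by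
          rw [map_mul, hvq, hq, map_pow]
          exact mul_pos (pow_pos (zero_lt_iff.2 hV0) _) (pow_pos (zero_lt_iff.2 hV0) _)
        exact (mul_lt_iff_lt_one_right h4).1 hij)
    refine mult_le_one hcount fun i j hi hij => h1 i j ?_ (by rw [hij])
    rw [hi, map_mul, hvq, ← he, h2e, mul_add, pow_add, mul_pow, ← pow_mul]
    refine mul_le_mul_right ?_ _
    rw [pow_mul]
    exact pow_le_pow_left' hc _

end pieces

theorem result {p : ℕ} [Fact p.Prime] {k : Type} [Field k] [Fintype k] {s : ℕ}
    (hk : Fintype.card k = p ^ s) {L V J : Type} [Field L] [CharZero L] [IsAlgClosed L]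
    [AddCommGroup V] [Module L V] [FiniteDimensional L V] (H : WildH2 p k L V J)
    (hg : ∀ j, H.W j ≠ ⊥ → (H.part j).Good p s L) : H.Fr.IsSemisimple := by
  have hp := (Fact.out : p.Prime)
  have hp0 : (p : L) ≠ 0 := Nat.cast_ne_zero.2 hp.ne_zero
  -- the frame
  have hchar : CharP k p := by
    obtain ⟨p', hp'⟩ := CharP.exists k
    obtain ⟨n, hp'', hn⟩ := FiniteField.card k p'
    rw [hk] at hn
    have h1 : p' ∣ p ^ s := by
      rw [hn]
      exact dvd_pow_self p' n.2.ne'
    have h2 := (Nat.prime_dvd_prime_iff_eq hp'' hp).1 (hp''.dvd_of_dvd_pow h1)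
    rwa [h2] at hp'
  let _ : Algebra (ZMod p) k := ZMod.algebra k p
  have : Algebra.IsAlgebraic (ZMod p) k := by
    have : Module.Finite (ZMod p) k := Module.Finite.of_finite
    exact Algebra.IsAlgebraic.of_finite (ZMod p) k
  let i : k →ₐ[ZMod p] AlgebraicClosure (ZMod p) := IsAlgClosed.lift
  let _ : Algebra k (AlgebraicClosure (ZMod p)) := i.toRingHom.toAlgebra
  have : CharP (AlgebraicClosure (ZMod p)) p :=
    charP_of_injective_algebraMap (algebraMap (ZMod p) (AlgebraicClosure (ZMod p))).injective p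
  obtain ⟨Φ, hadd⟩ := exists_frame p L
  -- reduction to the parts
  apply semisimple_of_iSup
  rw [eq_top_iff, ← H.span]
  refine sup_le (le_of_semisimple H.N_stable H.N_semisimple) (iSup_le fun j => ?_)
  by_cases hj : H.W j = ⊥
  · rw [hj]; exact bot_le
  have hj' : H.W (H.dual j) ≠ ⊥ := by
    intro h
    apply hj
    rw [Submodule.eq_bot_iff]
    intro v hv
    apply H.perfect j v hv
    intro w hw
    rw [h, Submodule.mem_bot] at hw
    rw [hw, map_zero]
  refine le_of_mult (H.stable j) fun x => ?_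
  by_cases hx : Φ.v (p : L) ^ s ≤ Φ.v x
  · exact part_mult Φ hadd hk H.ψ_ne (hg j hj)
      (fun m hm K _ _ _ _ hK => H.trace_formula j m hm K hK) hx
  rw [not_le] at hx
  by_cases hx0 : x = 0
  · subst hx0
    by_contra hcon
    have hx1 : (0 : L) ∈ eigs (H.Fr.restrict (H.stable j)) := by
      by_contra h
      rw [mult_zero_of_notMem h] at hcon
      omega
    exact ne_zero_of_mem_eigs
      (fun x y h => Subtype.ext (H.injective (congrArg Subtype.val h))) hx1 rfl
  refine (mult_le_dual (T' := H.Fr.restrict (H.stable (H.dual j)))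
    (H.B.domRestrict₁₂ (H.W j) (H.W (H.dual j))) (Q := (Fintype.card k : L) ^ 2)
    (fun x y => H.similitude x y) (fun x h => Subtype.ext
    (H.perfect j x x.2 fun w hw => h ⟨w, hw⟩)) hx0).trans ?_
  refine part_mult Φ hadd hk H.ψ_ne (hg (H.dual j) hj')
    (fun m hm K _ _ _ _ hK => H.trace_formula (H.dual j) m hm K hK) ?_
  by_contra hcon
  rw [not_le] at hcon
  have h2 := mul_lt_mul'' hx hcon zero_le zero_le
  rw [← map_mul, mul_div_cancel₀ _ hx0, hk, Nat.cast_pow, map_pow, map_pow, pow_two] at h2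
  exact lt_irrefl _ h2

end Pool.Agent.Results.MP_1fe969_ag.WildCovers
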