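import Pool.Agent.Helper48.V10.Ell
import Pool.Agent.Helper73.WT.Main
import Pool.Agent.Helper73.WT.Cov

/-!
# Frobenius on the second cohomology of `p`-covers of surfaces

Let `Ω` be an algebraic closure of the field with `p` elements, `p` a prime. Frobenius is semisimple
on the second cohomology of every surface over a finite field which is dominated, over `Ω`, by a
surface with the function field `K`, in the following two cases.

(1) `IsWildCover`: `K / R` is a finite abelian extension of function fields of surfaces over `Ω`,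
and every intermediate field `M` with a cyclic Galois group `Gal(M / R)` either is good (Frobenius is
semisimple on its second cohomology; this is known, for example, for rational surfaces, for `K3`
surfaces, for the surfaces which are dominated by products of curves, and for the tamely ramified
covers of `Results/MP_1fe969_ag/CyclicPlanes.lean`), or satisfies the condition `IsTwist`: `M = B(w)`,
`c = w ^ p - w ∈ B`, `p = [M : B]`, for the function field `B` of some surface, `R ⊆ B ⊆ M` (for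
example `B = R`), and the threefold `d ^ p - d = s ^ 2 - c` over `B` (`d ^ 2 + d = s ^ 3 + c` for
`p = 2`) is uniruled. This threefold is the quotient by the cyclic group with `p` elements of the
product of the surface and the supersingular curve `u ^ p - u = s ^ 2` (`u ^ 2 + u = s ^ 3`), and is,
for `p ≠ 2`, the double cover of the product of `B` and the `d`-line with the branch surface
`d ^ p - d + c = 0`. Examples:

* all elliptic surfaces `y ^ 2 + a₁ * x * y + a₃ * y = x ^ 3 + a₂ * x ^ 2 + a₄ * x + a₆`, where `aᵢ` is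
  a polynomial in `u` of degree at most `i * (P + 2) / (2 * P)`, `P = max p 3`, for all separable
  additive polynomials `u = l₀ * w + l₁ * w ^ p + ⋯ + lₑ * w ^ p ^ e`, for example `u = w ^ p - w` or
  `u = w ^ q - w` (`elliptic_additive` below). The bound is `5 * i / 6` for `p = 2` and `p = 3` (so
  `deg a₄ ≤ 3` and `deg a₆ ≤ 5`), `7 * i / 10` for `p = 5` (`deg a₄ ≤ 2` and `deg a₆ ≤ 4`), and at least
  `i / 2` for all `p` (`deg a₄ ≤ 2` and `deg a₆ ≤ 3`). So the geometric genus is unbounded for every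
  `p`. (Inseparable additive polynomials follow: the surface for `L₁(w ^ (p ^ j))`, `L₁` separable, is
  dominated by the surface for the separable polynomial with the `p ^ j`-th roots of all coefficients
  of `L₁` and the `aᵢ`.) The proof: `R = Ω(x, y, u)`, `K = R(w)`, and the cyclic extensions `M ≠ R` of `R` in `K` are
  `R(w')`, `w' ^ p - w' = λ * u`, `λ ∈ Ω`; by `λ * u = s ^ m - (d ^ p - d)`, `m = 2` (`m = 3` if `p = 2`),
  the threefold is a double cover of a weighted projective space with a negative canonical class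
  (`uni_dbl_wild` in `Helper48/V10/Dbl.lean`);
* the double planes `y ^ 2 = G(x, u) * y + F(x, u)`, with the same `u`, where for some weights `a`, `T`
  of `x`, `u` and some `g`, `h` with `p * g ≤ T`, `m * h ≤ T` the degree of `F` is at most
  `2 * (a + g + h)` and the degree of `G` is at most `a + g + h` (`double_additive` below);
* `F(x, y, u) = 0`, with the same `u`, where the degree of `F` for some weights `a`, `b`, `2 * c` of the
  variables is at most `a + b + c` (`additive` below; `pullback` for `u = w ^ p - w` and smaller `R`);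
* the covers of the plane in (2) without `t`, and `u = f(x, y) / g(x, y) ^ 2` with the same `u`
  (`plane_additive` below).

(2) `IsWildPlane`: `K = Ω(x, y, t, w₁, …, wᵣ)`, `t = 0` if `p ≠ 2`, `P = max (p, 3)`,

`t ^ 4 + t = B / (e h ^ 2)`, `wᵢ ^ p - wᵢ = fᵢ / g ^ 2` or `t ^ 3 + fᵢ / g ^ 2`, `g ^ 2 = e h ^ P`,

where `fᵢ`, `B`, `g`, `e`, `h` are polynomials in `x`, `y` and `deg e + (P - 2) deg h ≤ 2 (a + b)`,
`(P - 2) deg fᵢ + 2 deg e ≤ 2 P (a + b)`, `deg B + deg e ≤ 4 (a + b)` for some weights `a`, `b` of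
`x`, `y`. For `g = 1`, `t = 0` and the usual degree: all `fᵢ` with `deg fᵢ ≤ 12` if `p = 2` or
`p = 3`, `deg fᵢ ≤ 6` if `p = 5`, `deg fᵢ ≤ 5` if `p = 7` and `deg fᵢ ≤ 4` if `p > 7`. For `p = 2`,
`g = 1` and the usual degree: all `t ^ 4 + t = B`, `w ^ 2 + w = t ^ 3 + f` with `deg B ≤ 8`,
`deg f ≤ 12` (the Galois group is in general the quaternion group of order eight).

The theory `T : Theory p Ω L` (`Helper75/QC/Defs.lean`) is the part of weight `i` of the cohomology
in degree `i` of the generic point.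
-/

set_option autoImplicit false

open IntermediateField

namespace Pool.Agent.Results.MP_1fe969_ag.WildPlanes

open Pool.Agent.Helper75.QC Pool.Agent.Helper73.QX

/-- `M = B(w)`, `w ^ p - w ∈ B`, `p = [M : B]`, where `B = Ω(x, y, z)` is the function field of a
surface and contains `R`, and the threefold `d ^ p - d = s ^ m - (w ^ p - w)` over `B` is uniruled,
`m = 2` (`m = 3` if `p = 2`). -/
def IsTwist (p : ℕ) (Ω R M : Type) [Field Ω] [Field R] [Field M] [Algebra Ω M] [Algebra R M] :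
    Prop :=
  ∃ x y z w : M, IsAlgebraic (adjoin Ω {x, y}) z ∧
    (∀ r : R, algebraMap R M r ∈ adjoin Ω {x, y, z}) ∧ adjoin Ω {x, y, z, w} = ⊤ ∧
    Module.finrank (adjoin Ω {x, y, z}) M = p ∧ w ^ p - w ∈ adjoin Ω {x, y, z} ∧
    ∀ (N : Type) [Field N] [Algebra Ω N] (g : M →ₐ[Ω] N) (d s : N),
      Transcendental g.fieldRange s →
      d ^ p - d = s ^ (if p = 2 then 3 else 2) - g (w ^ p - w) →
      Uniruled Ω (adjoin Ω {g x, g y, g z, d, s} : IntermediateField Ω N) 3

/-- `K` is finitely generated and every relative Frobenius is semisimple on its second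
cohomology. -/
def IsGood {p : ℕ} {Ω L : Type} [Field Ω] [Field L] (T : Theory p Ω L) (K : Type) [Field K]
    [Algebra Ω K] : Prop :=
  (⊤ : IntermediateField Ω K).FG ∧ ∀ (e : ℕ) (φ : K →ₐ[Ω] K), 0 < e → IsFrob (p ^ e) φ →
    Module.End.IsSemisimple (T.map 2 φ)

/-- `K / R` is a finite abelian extension, and every intermediate field `M` with a cyclic group
`Gal(M / R)` is good or satisfies `IsTwist`. -/
def IsWildCover {p : ℕ} {Ω L : Type} [Field Ω] [Field L] (T : Theory p Ω L) (K : Type) [Field K]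
    [Algebra Ω K] : Prop :=
  ∃ R : IntermediateField Ω K, FiniteDimensional R K ∧ IsGalois R K ∧
    (∀ g h : K ≃ₐ[R] K, g * h = h * g) ∧
    ∀ M : IntermediateField R K, IsCyclic (M ≃ₐ[R] M) → IsGood T M ∨ IsTwist p Ω R M

section Examples

variable {p : ℕ} [hp : Fact p.Prime] {Ω R M : Type} [Field Ω] [Algebra (ZMod p) Ω] [IsAlgClosed Ω]
  [Field R] [Field M] [Algebra Ω M] [Algebra R M]

omit hp [Algebra (ZMod p) Ω] [IsAlgClosed Ω] in
theorem isTwist_of_row (h : Pool.Agent.Helper73.WT.RowW p Ω R M) : IsTwist p Ω R M := h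

/-- Examples of `IsTwist`: `M = Ω(x, y, w)`, `p = [M : Ω(x, y, w ^ p - w)]`,
`R ⊆ Ω(x, y, w ^ p - w)`, and `F(x, y, w ^ p - w) = 0` for a polynomial `F ≠ 0` of degree at most
`a + b + c` for some weights `a, b, 2 * c` of its variables. -/
theorem pullback (a b c : ℕ) (F : MvPolynomial (Fin 3) Ω) (x y w : M)
    (hR : ∀ r : R, algebraMap R M r ∈ adjoin Ω {x, y, w ^ p - w}) (hM : adjoin Ω {x, y, w} = ⊤)
    (hn : Module.finrank (adjoin Ω {x, y, w ^ p - w}) M = p) (habc : 0 < a + b + c) (hF : F ≠ 0)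
    (hd : ∀ m ∈ F.support, a * m 0 + b * m 1 + 2 * c * m 2 ≤ a + b + c)
    (h0 : MvPolynomial.aeval ![x, y, w ^ p - w] F = 0) : IsTwist p Ω R M :=
  isTwist_of_row (Pool.Agent.Helper73.WT.pull_rowW a b c F x y w hR hM hn habc hF hd h0)

variable {L : Type} [Field L] (T : Theory p Ω L) {K : Type} [Field K] [Algebra Ω K]

omit hp [Algebra (ZMod p) Ω] [IsAlgClosed Ω] [Algebra Ω M] in
theorem isGood_of_uniruled [Algebra Ω M] (hM : (⊤ : IntermediateField Ω M).FG)
    (h : Uniruled Ω M 2) : IsGood T M := by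
  refine ⟨hM, fun e φ _ _ => ?_⟩
  have h0 : Subsingleton (T.H 2 M) :=
    ⟨fun a b => by rw [T.uniruled 2 M h a, T.uniruled 2 M h b]⟩
  rw [Subsingleton.elim (T.map 2 φ) 0]
  exact Module.End.isSemisimple_zero

omit hp [Algebra (ZMod p) Ω] [IsAlgClosed Ω] in
theorem isWildCover_of (hK : (⊤ : IntermediateField Ω K).FG)
    (h : Pool.Agent.Helper73.SS.IsCoverW p Ω K) : IsWildCover T K := by
  obtain ⟨R, h1, h2, h3, h4⟩ := h
  refine ⟨R, h1, h2, h3, fun M hc => ?_⟩
  have h5 : Algebra.IsAlgebraic M K := Algebra.IsAlgebraic.of_finite M K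
  have h6 : IsScalarTower Ω M K := IsScalarTower.of_algebraMap_eq fun _ => rfl
  exact (h4 M hc).imp (isGood_of_uniruled T (Pool.Agent.Helper73.WT.fg_sub hK)) fun h => h

/-- **Base change by an additive polynomial.** `K = Ω(x, y, w)` and `F(x, y, u) = 0`, where
`u = l 0 * w + l 1 * w ^ p + ⋯ + l e * w ^ p ^ e`, `l 0 ≠ 0`, `l e ≠ 0`, and `F ≠ 0` is a polynomial of
degree at most `a + b + c` for some weights `a, b, 2 * c` of its variables. -/
theorem additive (e : ℕ) (l : ℕ → Ω) (hl0 : l 0 ≠ 0) (hle : l e ≠ 0) (a b c : ℕ)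
    (F : MvPolynomial (Fin 3) Ω) (x y w u : K) (hK : adjoin Ω {x, y, w} = ⊤)
    (hu : u = ∑ i ∈ Finset.range (e + 1), algebraMap Ω K (l i) * w ^ p ^ i)
    (habc : 0 < a + b + c) (hF : F ≠ 0)
    (hd : ∀ m ∈ F.support, a * m 0 + b * m 1 + 2 * c * m 2 ≤ a + b + c)
    (h0 : MvPolynomial.aeval ![x, y, u] F = 0) : IsWildCover T K := by
  rw [hu] at h0
  exact isWildCover_of T (by rw [← hK]; exact fg_adjoin_of_finite (by simp))
    (Pool.Agent.Helper73.SS.isCoverW_add hl0 hle a b c F x y w hK habc hF hd h0)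

/-- **Double planes.** `K = Ω(x, y, w)` and `y ^ 2 = G(x, u) * y + F(x, u)`, where
`u = l 0 * w + l 1 * w ^ p + ⋯ + l e * w ^ p ^ e`, `l 0 ≠ 0`, `l e ≠ 0`, and for some weights `a`, `b` of
`x`, `u` and some `g`, `h` with `p * g ≤ b` and `2 * h ≤ b` (`3 * h ≤ b` if `p = 2`), not all of `a`, `g`,
`h` zero, the degree of `F` is at most `2 * (a + h + g)` and the degree of `G` at most `a + h + g`. -/
theorem double_additive (e : ℕ) (l : ℕ → Ω) (hl0 : l 0 ≠ 0) (hle : l e ≠ 0) (a b g h : ℕ)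
    (hh : (if p = 2 then 3 else 2) * h ≤ b) (hg : p * g ≤ b) (hpos : 0 < a + h + g)
    (F G : MvPolynomial (Fin 2) Ω) (x y w u : K) (hK : adjoin Ω {x, y, w} = ⊤)
    (hu : u = ∑ i ∈ Finset.range (e + 1), algebraMap Ω K (l i) * w ^ p ^ i)
    (hF : ∀ m ∈ F.support, a * m 0 + b * m 1 ≤ 2 * (a + h + g))
    (hG : ∀ m ∈ G.support, a * m 0 + b * m 1 ≤ a + h + g)
    (hy : y ^ 2 = MvPolynomial.aeval ![x, u] G * y + MvPolynomial.aeval ![x, u] F) :
    IsWildCover T K := by
  rw [hu] at hy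
  exact isWildCover_of T (by rw [← hK]; exact fg_adjoin_of_finite (by simp))
    (Pool.Agent.Helper48.V10.isCoverW_dbl' hl0 hle hh hg hpos F G x y w hK hF hG hy)

/-- **Elliptic surfaces.** `y ^ 2 + a₁ * x * y + a₃ * y = x ^ 3 + a₂ * x ^ 2 + a₄ * x + a₆`, where `aᵢ` is
a polynomial of degree at most `i * (P + 2) / (2 * P)`, `P = max p 3`, in
`u = l 0 * w + l 1 * w ^ p + ⋯ + l e * w ^ p ^ e`, `l 0 ≠ 0`, `l e ≠ 0`. -/
theorem elliptic_additive (e : ℕ) (l : ℕ → Ω) (hl0 : l 0 ≠ 0) (hle : l e ≠ 0)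
    (a₁ a₂ a₃ a₄ a₆ : Polynomial Ω) (h₁ : 2 * max p 3 * a₁.natDegree ≤ max p 3 + 2)
    (h₂ : 2 * max p 3 * a₂.natDegree ≤ 2 * (max p 3 + 2))
    (h₃ : 2 * max p 3 * a₃.natDegree ≤ 3 * (max p 3 + 2))
    (h₄ : 2 * max p 3 * a₄.natDegree ≤ 4 * (max p 3 + 2))
    (h₆ : 2 * max p 3 * a₆.natDegree ≤ 6 * (max p 3 + 2))
    (x y w u : K) (hK : adjoin Ω {x, y, w} = ⊤)
    (hu : u = ∑ i ∈ Finset.range (e + 1), algebraMap Ω K (l i) * w ^ p ^ i)
    (h : y ^ 2 + Polynomial.aeval u a₁ * x * y + Polynomial.aeval u a₃ * y =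
      x ^ 3 + Polynomial.aeval u a₂ * x ^ 2 + Polynomial.aeval u a₄ * x +
        Polynomial.aeval u a₆) : IsWildCover T K :=
  isWildCover_of T (by rw [← hK]; exact fg_adjoin_of_finite (by simp))
    (Pool.Agent.Helper48.V10.isCoverW_ell hl0 hle a₁ a₂ a₃ a₄ a₆ h₁ h₂ h₃ h₄ h₆ x y w u hK hu h)

/-- **Covers of the plane.** `K = Ω(x, y, w)`, `L(w) = f(x, y) / g(x, y) ^ 2`,
`L(w) = l 0 * w + l 1 * w ^ p + ⋯ + l j * w ^ p ^ j`, `l 0 ≠ 0`, `l j ≠ 0`, `j > 0`, and for the weights
`a`, `b` of `x`, `y` and for `P = max p 3`, `deg g ≤ e ≤ a + b` and `deg f ≤ d`,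
`(P - 2) * d + 4 * e ≤ 2 * P * (a + b)`. -/
theorem plane_additive {a b d e j : ℕ} (l : ℕ → Ω) (hl0 : l 0 ≠ 0) (hlj : l j ≠ 0) (hj : 0 < j)
    (f g : MvPolynomial (Fin 2) Ω) (x y w : K) (hab : 0 < a + b)
    (hf : ∀ m ∈ f.support, a * m 0 + b * m 1 ≤ d)
    (hg : ∀ m ∈ g.support, a * m 0 + b * m 1 ≤ e) (he : e ≤ a + b)
    (hd : (max p 3 - 2) * d + 4 * e ≤ 2 * max p 3 * (a + b))
    (hK : adjoin Ω {x, y, w} = ⊤) (hg0 : MvPolynomial.aeval ![x, y] g ≠ 0)
    (hw : (∑ i ∈ Finset.range (j + 1), algebraMap Ω K (l i) * w ^ p ^ i) *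
      MvPolynomial.aeval ![x, y] g ^ 2 = MvPolynomial.aeval ![x, y] f) : IsWildCover T K :=
  isWildCover_of T (by rw [← hK]; exact fg_adjoin_of_finite (by simp))
    (Pool.Agent.Helper73.SS.isCoverW_plane_add hl0 hlj hj hab hf hg he hd hK hg0 hw)

end Examples

/-- `K₀` is the function field of a surface `X` over the field with `p ^ e` elements (extended to
`Ω`), `φ₀` its relative Frobenius; `X` is dominated over `Ω` by the surface with function field `K`;
`V = H²(X)`. -/
theorem result {p : ℕ} [Fact p.Prime] {Ω L : Type} [Field Ω] [Algebra (ZMod p) Ω]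
    [IsAlgClosure (ZMod p) Ω] [Field L] [CharZero L] [IsAlgClosed L] (T : Theory p Ω L)
    {K K₀ : Type} [Field K] [Algebra Ω K] (hK : IsWildPlane p Ω K ∨ IsWildCover T K) [Field K₀]
    [Algebra Ω K₀] (hfin : (⊤ : IntermediateField Ω K₀).FG) (ι : K₀ →ₐ[Ω] K)
    (hι : ∀ a : K, IsAlgebraic ι.fieldRange a) {e : ℕ} (he : 0 < e) (φ₀ : K₀ →ₐ[Ω] K₀)
    (h₀ : IsFrob (p ^ e) φ₀) {V : Type} [AddCommGroup V] [Module L V] (Fr : Module.End L V)
    (r : V →ₗ[L] T.H 2 K₀) (hV : IsH2 T (p ^ e) φ₀ Fr r) : Fr.IsSemisimple := by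
  rcases hK with hK | ⟨R, hfd, hgal, hab, hM⟩
  · exact Pool.Agent.Helper73.QQ.main T hK hfin ι hι φ₀ h₀ Fr r hV
  · have : CharP Ω p := charP_of_injective_algebraMap (algebraMap (ZMod p) Ω).injective p
    have : IsAlgClosed Ω := IsAlgClosure.isAlgClosed (ZMod p)
    have hG := Pool.Agent.Helper73.WT.main T R hab hM hfin ι hι
    exact hG.surface he φ₀ h₀ Fr r hV

end Pool.Agent.Results.MP_1fe969_ag.WildPlanes
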